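import Mathlib

set_option autoImplicit false

/-! # Pure states and masas of `B(H)`: definitions -/

open scoped InnerProductSpace ComplexOrder

namespace Pool.Agent.Helper572.PS2

variable {H : Type*} [NormedAddCommGroup H] [InnerProductSpace ℂ H] [CompleteSpace H]

/-- A state of `B(H)`: a positive linear functional of norm one. -/
def IsState (φ : (H →L[ℂ] H) →L[ℂ] ℂ) : Prop :=
  (∀ T : H →L[ℂ] H, 0 ≤ φ (star T * T)) ∧ ‖φ‖ = 1
/-- A pure state: an extreme point of the convex set of states. -/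
def IsPureState (φ : (H →L[ℂ] H) →L[ℂ] ℂ) : Prop :=
  φ ∈ Set.extremePoints ℝ {ψ : (H →L[ℂ] H) →L[ℂ] ℂ | IsState ψ}
/-- A masa of `B(H)`: a maximal abelian self-adjoint subalgebra. -/
def IsMasa (A : StarSubalgebra ℂ (H →L[ℂ] H)) : Prop :=
  (∀ a ∈ A, ∀ b ∈ A, a * b = b * a) ∧
  ∀ B : StarSubalgebra ℂ (H →L[ℂ] H), (∀ a ∈ B, ∀ b ∈ B, a * b = b * a) → A ≤ B → A = B
/-- The atomic part of `A`: the closed linear span of the joint eigenvectors of `A`. -/
noncomputable def atomicPart (A : StarSubalgebra ℂ (H →L[ℂ] H)) : Submodule ℂ H :=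
  (Submodule.span ℂ {v : H | ∀ a ∈ A, ∃ c : ℂ, a v = c • v}).topologicalClosure
instance (A : StarSubalgebra ℂ (H →L[ℂ] H)) : CompleteSpace (atomicPart A) :=
  (Submodule.isClosed_topologicalClosure _).completeSpace_coe

end Pool.Agent.Helper572.PS2
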