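import Mathlib
import Pool.Agent.Helper572.PS2.Defs

set_option autoImplicit false

/-! # A pure state that is not multiplicative on the atomic part of any masa

`H` is the orthogonal sum of blocks `H_k = ℓ²(Λ_k)`, `Λ_k = ((Fin k → Bool) → Fin q_k × Fin q_k)`.
Every orthogonal sequence `e` (vectors of norm one or zero) is coded by its own branch `ξ` and gets a
closed subspace `L`, defined in block `k` by a Reed-Solomon code word at the tensor position `ξ ↾ k`,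
such that the projections of the `e n` to the blocks of `L` have norm squared at most `1 / t_k`.
A moment computation with random signs gives signs `ε n` for which the operator `∑ ε n |e n⟩⟨e n|` is
at most `1/2` on `L`, while finitely many of the subspaces `L` have a common unit vector. -/

open scoped InnerProductSpace ComplexOrder
open Filter Topology

namespace Pool.Agent.Helper572.PS2

variable {H : Type*} [NormedAddCommGroup H] [InnerProductSpace ℂ H] [CompleteSpace H]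

/-- sign of a Boolean -/
def sg (b : Bool) : ℝ := if b then 1 else -1
/-- Bessel sequences -/
def Bess (e : ℕ → H) : Prop := ∀ (s : Finset ℕ) (z : H), ∑ n ∈ s, ‖⟪e n, z⟫_ℂ‖ ^ 2 ≤ ‖z‖ ^ 2
/-- orthogonal sequences of vectors of norm one or zero -/
def OrthZ (e : ℕ → H) : Prop := (∀ n, ‖e n‖ = 1 ∨ e n = 0) ∧ ∀ n m, n ≠ m → ⟪e n, e m⟫_ℂ = 0
/-- closed span of `e n`, `n ∈ S` -/
noncomputable def spanS (e : ℕ → H) (S : Set ℕ) : Submodule ℂ H :=
  (Submodule.span ℂ (e '' S)).topologicalClosure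
instance (e : ℕ → H) (S : Set ℕ) : CompleteSpace (spanS e S) :=
  (Submodule.isClosed_topologicalClosure _).completeSpace_coe


theorem exists_code_agree (p r : ℕ) [hp : Fact p.Prime] (c d : Fin r → ZMod p) (hcd : c ≠ d) :
    (Finset.univ.filter (fun a : ZMod p => (∑ i, c i * a ^ (i : ℕ)) = ∑ i, d i * a ^ (i : ℕ))).card
      < r := by
  classical
  let P : Polynomial (ZMod p) := ∑ i : Fin r, Polynomial.C (c i - d i) * Polynomial.X ^ (i : ℕ)
  have hcoef : ∀ j : Fin r, P.coeff j = c j - d j := by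
    intro j
    simp only [P, Polynomial.finsetSum_coeff, Polynomial.coeff_C_mul, Polynomial.coeff_X_pow]
    rw [Finset.sum_eq_single j]
    · simp
    · intro b _ hb
      rw [if_neg (fun h => hb (Fin.ext h.symm)), mul_zero]
    · intro h
      exact absurd (Finset.mem_univ j) h
  have hP : P ≠ 0 := by
    intro h0
    apply hcd
    funext j
    have := hcoef j
    rw [h0, Polynomial.coeff_zero] at this
    exact (sub_eq_zero.mp this.symm)
  have hdeg : P.degree < (r : ℕ) := Polynomial.degree_sum_fin_lt (fun i => c i - d i)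
  have hroots : (Finset.univ.filter (fun a : ZMod p =>
      (∑ i, c i * a ^ (i : ℕ)) = ∑ i, d i * a ^ (i : ℕ))) ⊆ P.roots.toFinset := by
    intro a ha
    rw [Finset.mem_filter] at ha
    rw [Multiset.mem_toFinset, Polynomial.mem_roots hP, Polynomial.IsRoot.def]
    simp only [P, Polynomial.eval_finsetSum, Polynomial.eval_mul, Polynomial.eval_C,
      Polynomial.eval_pow, Polynomial.eval_X, sub_mul, Finset.sum_sub_distrib]
    rw [ha.2, sub_self]
  have h1 : (Finset.univ.filter (fun a : ZMod p =>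
      (∑ i, c i * a ^ (i : ℕ)) = ∑ i, d i * a ^ (i : ℕ))).card ≤ P.natDegree :=
    (Finset.card_le_card hroots).trans
      ((Multiset.toFinset_card_le _).trans (Polynomial.card_roots' P))
  have h2 : P.natDegree < r := (Polynomial.natDegree_lt_iff_degree_lt hP).mpr hdeg
  omega

theorem exists_code (k t0 : ℕ) : ∃ q t : ℕ, t0 ≤ t ∧ 0 < q ∧ 0 < t ∧ ∃ G : Finset (Fin q → Fin q),
    (∀ g ∈ G, ∀ h ∈ G, g ≠ h →
      2 * t * (Finset.univ.filter (fun a => g a = h a)).card ≤ q) ∧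
    2 * t ^ 2 * (q * q) ^ (2 ^ k) < G.card ∧
    (64 * 2 ^ (k + 3)) ^ (2 ^ (k + 3)) * (q * q) ^ (2 ^ k) * 2 ^ (k + 2) ≤ t ^ (2 ^ (k + 3)) := by
  classical
  obtain ⟨r, hr⟩ : ∃ r, r = 2 * 2 ^ k + 3 := ⟨_, rfl⟩
  obtain ⟨C, hC⟩ : ∃ C, C = (64 * 2 ^ (k + 3)) ^ 4 * 4 * r * 2 ^ (k + 2) := ⟨_, rfl⟩
  obtain ⟨t, ht⟩ : ∃ t, t = t0 + C + 1 := ⟨_, rfl⟩
  have ht1 : 1 ≤ t := by omega
  have hr0 : 1 ≤ r := by omega
  have h2tr : 2 * t * r ≠ 0 := by positivity
  obtain ⟨p, hp, hp1, hp2⟩ := Nat.exists_prime_lt_and_le_two_mul (2 * t * r) h2tr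
  haveI : Fact p.Prime := ⟨hp⟩
  have htr : t ≤ t * r := Nat.le_mul_of_pos_right t hr0
  have hrt : r ≤ t * r := Nat.le_mul_of_pos_left r ht1
  have h2tr' : 2 * t * r = 2 * (t * r) := by ring
  have hrp : 2 * r ≤ p := by omega
  have htp : 2 * t ≤ p := by omega
  let e : ZMod p ≃ Fin p := Fintype.equivOfCardEq (by rw [ZMod.card, Fintype.card_fin])
  let w : (Fin r → ZMod p) → (Fin p → Fin p) := fun c a =>
    e (∑ i, c i * (e.symm a) ^ (i : ℕ))
  have hag : ∀ c d : Fin r → ZMod p, c ≠ d →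
      (Finset.univ.filter (fun a => w c a = w d a)).card < r := by
    intro c d hcd
    refine lt_of_le_of_lt ?_ (exists_code_agree p r c d hcd)
    apply Finset.card_le_card_of_injOn e.symm
    · intro a ha
      rw [Finset.mem_coe, Finset.mem_filter] at ha ⊢
      exact ⟨Finset.mem_univ _, e.injective ha.2⟩
    · exact e.symm.injective.injOn
  have hinj : Function.Injective w := by
    intro c d hw
    by_contra hcd
    have h1 := hag c d hcd
    rw [hw] at h1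
    simp only [Finset.filter_true, Finset.card_univ, Fintype.card_fin] at h1
    omega
  refine ⟨p, t, by omega, hp.pos, ht1, Finset.univ.image w, ?_, ?_, ?_⟩
  · intro g hg h hh hgh
    rw [Finset.mem_image] at hg hh
    obtain ⟨c, _, rfl⟩ := hg
    obtain ⟨d, _, rfl⟩ := hh
    have h1 := hag c d (fun h => hgh (by rw [h]))
    calc 2 * t * (Finset.univ.filter (fun a => w c a = w d a)).card ≤ 2 * t * r :=
          Nat.mul_le_mul_left _ h1.le
      _ ≤ p := hp1.le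
  · rw [Finset.card_image_of_injective _ hinj, Finset.card_univ, Fintype.card_fun, ZMod.card,
      Fintype.card_fin]
    have e1 : (p * p) ^ (2 ^ k) = p ^ (2 * 2 ^ k) := by
      rw [← pow_two, ← pow_mul]
    have e2 : p ^ r = p ^ (2 * 2 ^ k) * p ^ 3 := by
      rw [← pow_add, hr]
    rw [e1, e2, mul_comm (2 * t ^ 2)]
    apply Nat.mul_lt_mul_of_pos_left _ (pow_pos hp.pos _)
    calc 2 * t ^ 2 < (2 * t) ^ 3 := by
          have h3 : (2 * t) ^ 3 = 8 * (t ^ 2 * t) := by ring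
          have h4 : t ^ 2 ≤ t ^ 2 * t := Nat.le_mul_of_pos_right _ ht1
          have h5 : 0 < t ^ 2 := by positivity
          omega
      _ ≤ p ^ 3 := Nat.pow_le_pow_left htp _
  · obtain ⟨N, hN⟩ : ∃ N, N = 2 ^ (k + 1) := ⟨_, rfl⟩
    have hN1 : N ≠ 0 := by rw [hN]; positivity
    have e1 : 2 ^ (k + 3) = 4 * N := by rw [hN]; ring
    have e2 : (p * p) ^ (2 ^ k) = p ^ N := by
      rw [← pow_two, ← pow_mul, hN]
      congr 1
      ring
    have e3 : (64 * 2 ^ (k + 3)) ^ (2 ^ (k + 3)) = ((64 * 2 ^ (k + 3)) ^ 4) ^ N := by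
      rw [← pow_mul, ← e1]
    have e4 : t ^ (2 ^ (k + 3)) = (t ^ 4) ^ N := by
      rw [← pow_mul, ← e1]
    rw [e2, e3, e4]
    have h3 : 2 ^ (k + 2) ≤ (2 ^ (k + 2)) ^ N := Nat.le_self_pow hN1 _
    have h4 : p ^ N ≤ (4 * (t * r)) ^ N := Nat.pow_le_pow_left (by omega) _
    have h5 : (64 * 2 ^ (k + 3)) ^ 4 * (4 * (t * r)) * 2 ^ (k + 2) = C * t := by
      rw [hC]; ring
    have h6 : C * t ≤ t ^ 4 := by
      have h7 : C ≤ t := by omega
      calc C * t ≤ t * t := Nat.mul_le_mul_right _ h7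
        _ = t ^ 2 := by ring
        _ ≤ t ^ 4 := Nat.pow_le_pow_right ht1 (by norm_num)
    calc ((64 * 2 ^ (k + 3)) ^ 4) ^ N * p ^ N * 2 ^ (k + 2)
        ≤ ((64 * 2 ^ (k + 3)) ^ 4) ^ N * (4 * (t * r)) ^ N * (2 ^ (k + 2)) ^ N := by
          gcongr
      _ = ((64 * 2 ^ (k + 3)) ^ 4 * (4 * (t * r)) * 2 ^ (k + 2)) ^ N := by
          rw [← mul_pow, ← mul_pow]
      _ = (C * t) ^ N := by rw [h5]
      _ ≤ (t ^ 4) ^ N := Nat.pow_le_pow_left h6 _
theorem params : ∃ (q t : ℕ → ℕ) (G : ∀ k, Finset (Fin (q k) → Fin (q k))),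
    (∀ k, 0 < q k) ∧ (∀ k, 0 < t k) ∧
    (∀ k, ∀ g ∈ G k, ∀ h ∈ G k, g ≠ h →
      2 * t k * (Finset.univ.filter (fun a => g a = h a)).card ≤ q k) ∧
    (∀ k, 2 * t k ^ 2 * (q k * q k) ^ (2 ^ k) < (G k).card) ∧
    (∀ k, (64 * 2 ^ (k + 3)) ^ (2 ^ (k + 3)) * (q k * q k) ^ (2 ^ k) * 2 ^ (k + 2) ≤
      t k ^ (2 ^ (k + 3))) ∧
    (∀ k l, k < l → (q k * q k) ^ (2 ^ k) * 2 ^ (6 * l + 14) ≤ t l) := by
  choose qf tf h1 h2 h3 G h4 h5 h6 using exists_code
  obtain ⟨A, hA0, hA1⟩ : ∃ A : ℕ → ℕ, A 0 = 0 ∧ ∀ l, A (l + 1) = A l +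
      (qf l (A l * 2 ^ (6 * l + 14)) * qf l (A l * 2 ^ (6 * l + 14))) ^ (2 ^ l) := by
    refine ⟨fun l => Nat.rec 0 (fun l a => a +
      (qf l (a * 2 ^ (6 * l + 14)) * qf l (a * 2 ^ (6 * l + 14))) ^ (2 ^ l)) l, rfl, fun l => rfl⟩
  have hmono : Monotone A := monotone_nat_of_le_succ (fun l => by rw [hA1]; exact Nat.le_add_right _ _)
  refine ⟨fun l => qf l (A l * 2 ^ (6 * l + 14)), fun l => tf l (A l * 2 ^ (6 * l + 14)),
    fun l => G l (A l * 2 ^ (6 * l + 14)), fun k => h2 _ _, fun k => h3 _ _, fun k => h4 _ _,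
    fun k => h5 _ _, fun k => h6 _ _, ?_⟩
  intro k l hkl
  have h7 : (qf k (A k * 2 ^ (6 * k + 14)) * qf k (A k * 2 ^ (6 * k + 14))) ^ (2 ^ k) ≤ A (k + 1) := by
    rw [hA1]
    exact Nat.le_add_left _ _
  have h8 : A (k + 1) ≤ A l := hmono hkl
  exact (Nat.mul_le_mul_right _ (h7.trans h8)).trans (h1 l _)

theorem exists_basis_reindex [TopologicalSpace.SeparableSpace H] (hinf : ¬ FiniteDimensional ℂ H)
    (J : Type) [Countable J] [Infinite J] : Nonempty (HilbertBasis J ℂ H) := by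
  obtain ⟨w, b, hb⟩ := exists_hilbertBasis ℂ H
  have hcount : Countable w := by
    refine Pairwise.countable_of_isOpen_disjoint (s := fun i : w => Metric.ball (i : H) (1 / 2))
      ?_ (fun i => Metric.isOpen_ball) (fun i => ⟨i, Metric.mem_ball_self (by norm_num)⟩)
    intro i j hij
    apply Metric.ball_disjoint_ball
    have h1 := b.orthonormal.2 hij
    have h2 := b.orthonormal.1 i
    have h3 := b.orthonormal.1 j
    rw [hb] at h1 h2 h3
    have h4 := @norm_sub_sq ℂ H _ _ _ (i : H) (j : H)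
    rw [h1, h2, h3] at h4
    rw [dist_eq_norm]
    have h5 : ‖(i : H) - (j : H)‖ ^ 2 = 2 := by
      rw [h4]
      simp
      norm_num
    have h6 := norm_nonneg ((i : H) - (j : H))
    nlinarith
  have hinfw : Infinite w := by
    by_contra hcon
    rw [not_infinite_iff_finite] at hcon
    have hft : Fintype w := Fintype.ofFinite w
    apply hinf
    exact Module.Basis.finiteDimensional_of_finite b.toOrthonormalBasis.toBasis
  obtain ⟨e⟩ := nonempty_equiv_of_countable (α := J) (β := w)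
  refine ⟨HilbertBasis.mk (v := fun j => b (e j)) (b.orthonormal.comp e e.injective) ?_⟩
  have h1 : Set.range (fun j => b (e j)) = Set.range b := e.surjective.range_comp b
  rw [h1, b.dense_span]

theorem exists_inj {J : Type} [Countable J] (b : HilbertBasis J ℂ H) :
    ∃ c : (ℕ → H) → (ℕ → Bool), Function.Injective c := by
  have hcard : Cardinal.mk (ℕ → J → ℂ) ≤ Cardinal.mk (ℕ → Bool) := by
    have e1 : Cardinal.mk (ℕ → J → ℂ) = (Cardinal.mk ℂ ^ Cardinal.mk J) ^ Cardinal.mk ℕ := rfl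
    have e2 : Cardinal.mk (ℕ → Bool) = Cardinal.mk Bool ^ Cardinal.mk ℕ := rfl
    rw [e1, e2, Cardinal.mk_complex, Cardinal.mk_nat, Cardinal.mk_bool, Cardinal.two_power_aleph0]
    calc (Cardinal.continuum ^ Cardinal.mk J) ^ Cardinal.aleph0
        ≤ (Cardinal.continuum ^ Cardinal.aleph0) ^ Cardinal.aleph0 :=
          Cardinal.power_le_power_right (Cardinal.power_le_power_left Cardinal.continuum_ne_zero
            Cardinal.mk_le_aleph0)
      _ = Cardinal.continuum := by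
          rw [Cardinal.continuum_power_aleph0, Cardinal.continuum_power_aleph0]
  rw [Cardinal.le_def] at hcard
  obtain ⟨g⟩ := hcard
  refine ⟨fun e => g (fun n j => b.repr (e n) j), ?_⟩
  intro e e' h
  have h1 := g.injective h
  funext n
  apply b.repr.injective
  apply lp.ext
  funext j
  exact congrFun (congrFun h1 n) j

/-- helper: normalized positive contractive linear functionals, as functions -/
def stK (H : Type*) [NormedAddCommGroup H] [InnerProductSpace ℂ H] [CompleteSpace H] :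
    Set ((H →L[ℂ] H) → ℂ) :=
  {f | (∀ S T, f (S + T) = f S + f T) ∧ (∀ (c : ℂ) T, f (c • T) = c * f T) ∧
    (∀ T, ‖f T‖ ≤ ‖T‖) ∧ (∀ T, 0 ≤ f (star T * T)) ∧ f 1 = 1}

theorem stK_compact : IsCompact (stK H) := by
  have hsub : stK H ⊆ Set.pi Set.univ (fun T => Metric.closedBall (0:ℂ) ‖T‖) := fun f hf T _ => by
    rw [mem_closedBall_zero_iff]; exact hf.2.2.1 T
  refine (isCompact_univ_pi fun T => isCompact_closedBall 0 ‖T‖).of_isClosed_subset ?_ hsub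
  unfold stK
  simp only [Set.ofPred_and, Set.ofPred_forall]
  refine IsClosed.inter ?_ (IsClosed.inter ?_ (IsClosed.inter ?_ (IsClosed.inter ?_ ?_)))
  · exact isClosed_iInter fun S => isClosed_iInter fun T =>
      isClosed_eq (by fun_prop) (by fun_prop)
  · exact isClosed_iInter fun c => isClosed_iInter fun T =>
      isClosed_eq (by fun_prop) (by fun_prop)
  · exact isClosed_iInter fun T =>
      isClosed_le (continuous_apply _).norm continuous_const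
  · exact isClosed_iInter fun T =>
      isClosed_le continuous_const (continuous_apply _)
  · exact isClosed_eq (continuous_apply _) continuous_const

theorem stK_vec (x : H) (hx : ‖x‖ = 1) : (fun T : H →L[ℂ] H => ⟪x, T x⟫_ℂ) ∈ stK H := by
  refine ⟨?_, ?_, ?_, ?_, ?_⟩
  · intro S T
    simp [inner_add_right]
  · intro c T
    simp [inner_smul_right]
  · intro T
    refine (norm_inner_le_norm x (T x)).trans ?_
    rw [hx, one_mul]
    refine (T.le_opNorm x).trans ?_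
    rw [hx, mul_one]
  · intro T
    show 0 ≤ ⟪x, (star T * T) x⟫_ℂ
    rw [ContinuousLinearMap.star_eq_adjoint, mul_apply_eq_comp,
      ContinuousLinearMap.adjoint_inner_right, inner_self_eq_norm_sq_to_K]
    have : (0:ℂ) ≤ ((‖T x‖^2 : ℝ) : ℂ) := Complex.zero_le_real.2 (sq_nonneg _)
    simpa using this
  · show ⟪x, (1 : H →L[ℂ] H) x⟫_ℂ = 1
    rw [one_apply_eq_self, inner_self_eq_norm_sq_to_K, hx]
    simp

theorem conv_one_aux (a b : ℝ) (ha : 0 < a) (hb : 0 < b) (hab : a + b = 1) (z w : ℂ)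
    (hz : ‖z‖ ≤ 1) (hw : ‖w‖ ≤ 1) (h : a • z + b • w = 1) : z = 1 := by
  have h1 := congrArg Complex.re h
  simp only [Complex.add_re, Complex.real_smul, Complex.re_ofReal_mul, Complex.one_re] at h1
  have h2 : z.re ≤ 1 := (Complex.re_le_norm z).trans hz
  have h3 : w.re ≤ 1 := (Complex.re_le_norm w).trans hw
  have h4 : z.re = 1 := by nlinarith
  have h5 : z.re ^ 2 + z.im ^ 2 ≤ 1 := by
    have h6 : ‖z‖ ^ 2 = z.re ^ 2 + z.im ^ 2 := by
      rw [← Complex.normSq_eq_norm_sq, Complex.normSq_apply]; ring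
    rw [← h6]
    nlinarith [norm_nonneg z]
  have h7 : z.im = 0 := by
    rw [h4] at h5
    nlinarith [sq_nonneg z.im]
  exact Complex.ext (by simpa using h4) (by simpa using h7)

theorem stK_of_state (φ : (H →L[ℂ] H) →L[ℂ] ℂ) (hφ : IsState φ) (h1 : φ 1 = 1) :
    (fun T => φ T) ∈ stK H := by
  refine ⟨fun S T => map_add φ S T, fun c T => ?_, fun T => ?_, hφ.1, h1⟩
  · simp
  · have := φ.le_opNorm T
    rwa [hφ.2, one_mul] at this


theorem exists_pure {I : Type*} (Q : I → (H →L[ℂ] H)) (hQ : ∀ i, ‖Q i‖ ≤ 1)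
    (hF : ∀ F : Finset I, ∃ x : H, ‖x‖ = 1 ∧ ∀ i ∈ F, Q i x = x) :
    ∃ φ : (H →L[ℂ] H) →L[ℂ] ℂ, IsPureState φ ∧ ∀ i, φ (Q i) = 1 := 
  by
  have hK := stK_compact (H := H)
  have hcl : ∀ i, IsClosed {f : (H →L[ℂ] H) → ℂ | f (Q i) = 1} := fun i =>
    isClosed_eq (continuous_apply _) continuous_const
  have hne : (stK H ∩ ⋂ i, {f : (H →L[ℂ] H) → ℂ | f (Q i) = 1}).Nonempty := by
    refine hK.inter_iInter_nonempty _ hcl ?_
    intro F
    obtain ⟨x, hx, hxF⟩ := hF F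
    refine ⟨_, stK_vec x hx, ?_⟩
    simp only [Set.mem_iInter, Set.mem_ofPred_eq]
    intro i hi
    rw [hxF i hi, inner_self_eq_norm_sq_to_K, hx]
    simp
  have hK1 : IsCompact (stK H ∩ ⋂ i, {f : (H →L[ℂ] H) → ℂ | f (Q i) = 1}) :=
    hK.inter_right (isClosed_iInter hcl)
  obtain ⟨f, hf⟩ := hK1.extremePoints_nonempty hne
  have hfK := hf.1.1
  have hfQ : ∀ i, f (Q i) = 1 := by
    have := hf.1.2
    simpa [Set.mem_iInter] using this
  obtain ⟨φ, hφ⟩ : ∃ φ : (H →L[ℂ] H) →L[ℂ] ℂ, (∀ T, φ T = f T) ∧ ‖φ‖ ≤ 1 := by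
    let L : (H →L[ℂ] H) →ₗ[ℂ] ℂ :=
      { toFun := f, map_add' := hfK.1, map_smul' := fun c T => hfK.2.1 c T }
    refine ⟨L.mkContinuous 1 (fun T => ?_), fun T => rfl, ?_⟩
    · rw [one_mul]; exact hfK.2.2.1 T
    · exact L.mkContinuous_norm_le zero_le_one _
  obtain ⟨hφf, hφ1⟩ := hφ
  have hst : IsState φ := by
    refine ⟨fun T => ?_, le_antisymm hφ1 ?_⟩
    · rw [hφf]; exact hfK.2.2.2.1 T
    · have h1 : ‖φ 1‖ ≤ ‖φ‖ * ‖(1 : H →L[ℂ] H)‖ := φ.le_opNorm 1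
      rw [hφf, hfK.2.2.2.2, norm_one] at h1
      have h2 : ‖(1 : H →L[ℂ] H)‖ ≤ 1 := ContinuousLinearMap.norm_id_le
      have h3 := norm_nonneg φ
      nlinarith
  refine ⟨φ, ⟨hst, ?_⟩, fun i => by rw [hφf]; exact hfQ i⟩
  intro φ1 h1 φ2 h2 hseg
  obtain ⟨a, b, ha, hb, hab, heq⟩ := hseg
  have hval : ∀ T, a • φ1 T + b • φ2 T = f T := by
    intro T
    rw [← hφf, ← heq]
    rfl
  have hbound : ∀ ψ : (H →L[ℂ] H) →L[ℂ] ℂ, IsState ψ → ∀ T, ‖T‖ ≤ 1 → ‖ψ T‖ ≤ 1 := by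
    intro ψ hψ T hT
    have := ψ.le_opNorm T
    rw [hψ.2, one_mul] at this
    exact this.trans hT
  have hone : ‖(1 : H →L[ℂ] H)‖ ≤ 1 := ContinuousLinearMap.norm_id_le
  have key : ∀ T, ‖T‖ ≤ 1 → f T = 1 → φ1 T = 1 ∧ φ2 T = 1 := by
    intro T hT hfT
    have hv := hval T
    rw [hfT] at hv
    refine ⟨conv_one_aux a b ha hb hab _ _ (hbound φ1 h1 T hT) (hbound φ2 h2 T hT) hv,
      conv_one_aux b a hb ha (by linarith) _ _ (hbound φ2 h2 T hT) (hbound φ1 h1 T hT) ?_⟩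
    rw [add_comm]
    exact hv
  have hmem : ∀ ψ : (H →L[ℂ] H) →L[ℂ] ℂ, IsState ψ → (∀ T, ‖T‖ ≤ 1 → f T = 1 → ψ T = 1) →
      (fun T => ψ T) ∈ stK H ∩ ⋂ i, {f : (H →L[ℂ] H) → ℂ | f (Q i) = 1} := by
    intro ψ hψ hψ1
    refine ⟨stK_of_state ψ hψ (hψ1 1 hone hfK.2.2.2.2), ?_⟩
    simp only [Set.mem_iInter, Set.mem_ofPred_eq]
    exact fun i => hψ1 _ (hQ i) (hfQ i)
  have hext := hf.2 (hmem φ1 h1 fun T hT h => (key T hT h).1)
    (hmem φ2 h2 fun T hT h => (key T hT h).2) ⟨a, b, ha, hb, hab, funext hval⟩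
  ext T
  rw [hφf]
  exact congrFun hext T

theorem bad_count {E : Type*} [NormedAddCommGroup E] [InnerProductSpace ℂ E] {κ : Type*}
    (t : ℕ) (ht : 0 < t)
    (V : Finset κ) (x : κ → E) (y : E) (hx : ∀ g ∈ V, ‖x g‖ ≤ 1)
    (hμ : ∀ g ∈ V, ∀ h ∈ V, g ≠ h → ‖⟪x g, x h⟫_ℂ‖ ≤ 1 / (2 * t))
    (hy : ∀ g ∈ V, ‖y‖ ^ 2 / t < ‖⟪x g, y⟫_ℂ‖ ^ 2) : V.card ≤ 2 * t := by
  classical
  by_contra hcon
  push Not at hcon
  obtain ⟨δ, hδ⟩ : ∃ δ : ℝ, δ = 1 / (2 * (t : ℝ)) := ⟨_, rfl⟩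
  have ht0 : (0 : ℝ) < t := by exact_mod_cast ht
  have hδ0 : 0 < δ := by rw [hδ]; positivity
  rw [← hδ] at hμ
  obtain ⟨c, hc⟩ : ∃ c : κ → ℂ, c = fun g => ⟪x g, y⟫_ℂ := ⟨_, rfl⟩
  have hcg : ∀ g, ⟪x g, y⟫_ℂ = c g := fun g => by rw [hc]
  simp only [hcg] at hy
  obtain ⟨C, hC⟩ : ∃ C : ℝ, C = ∑ g ∈ V, ‖c g‖ ^ 2 := ⟨_, rfl⟩
  obtain ⟨w, hw⟩ : ∃ w : E, w = ∑ g ∈ V, c g • x g := ⟨_, rfl⟩
  have hwy : ⟪w, y⟫_ℂ = (C : ℂ) := by
    rw [hw, sum_inner, hC]
    push_cast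
    apply Finset.sum_congr rfl
    intro g _
    rw [inner_smul_left, hcg, Complex.conj_mul']
  have hC0 : 0 ≤ C := by rw [hC]; exact Finset.sum_nonneg (fun _ _ => sq_nonneg _)
  have h1 : C ≤ ‖w‖ * ‖y‖ := by
    have := norm_inner_le_norm (𝕜 := ℂ) w y
    rw [hwy, Complex.norm_real, Real.norm_eq_abs, abs_of_nonneg hC0] at this
    exact this
  have h2 : ‖w‖ ^ 2 ≤ C + δ * (∑ g ∈ V, ‖c g‖) ^ 2 := by
    have e1 : ‖w‖ ^ 2 = ‖⟪w, w⟫_ℂ‖ := by
      rw [inner_self_eq_norm_sq_to_K]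
      simp
    have e2 : ⟪w, w⟫_ℂ = ∑ g ∈ V, ∑ h ∈ V, (starRingEnd ℂ (c g)) * (c h * ⟪x g, x h⟫_ℂ) := by
      conv_lhs => rw [hw]
      rw [sum_inner]
      apply Finset.sum_congr rfl
      intro g _
      rw [inner_smul_left, inner_sum, Finset.mul_sum]
      apply Finset.sum_congr rfl
      intro h _
      rw [inner_smul_right]
    rw [e1, e2]
    have e3 : ∀ g ∈ V, ∀ h ∈ V, ‖(starRingEnd ℂ (c g)) * (c h * ⟪x g, x h⟫_ℂ)‖ ≤
        (if g = h then ‖c g‖ ^ 2 else 0) + δ * (‖c g‖ * ‖c h‖) := by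
      intro g hg h hh
      rw [norm_mul, norm_mul, RCLike.norm_conj]
      by_cases hgh : g = h
      · subst hgh
        rw [if_pos rfl]
        have : ‖⟪x g, x g⟫_ℂ‖ ≤ 1 := by
          refine (norm_inner_le_norm _ _).trans ?_
          have := hx g hg
          nlinarith [norm_nonneg (x g)]
        have h3 : ‖c g‖ * (‖c g‖ * ‖⟪x g, x g⟫_ℂ‖) ≤ ‖c g‖ ^ 2 := by
          have := mul_le_mul_of_nonneg_left this (sq_nonneg ‖c g‖)
          nlinarith
        have h4 : 0 ≤ δ * (‖c g‖ * ‖c g‖) := by positivity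
        linarith
      · rw [if_neg hgh, zero_add]
        have h3 := hμ g hg h hh hgh
        have h4 : 0 ≤ ‖c g‖ * ‖c h‖ := by positivity
        have := mul_le_mul_of_nonneg_left h3 h4
        nlinarith
    refine (norm_sum_le _ _).trans ?_
    refine (Finset.sum_le_sum (fun g hg => (norm_sum_le _ _).trans
      (Finset.sum_le_sum (fun h hh => e3 g hg h hh)))).trans (le_of_eq ?_)
    have e4 : ∀ g ∈ V, ∑ h ∈ V, ((if g = h then ‖c g‖ ^ 2 else 0) + δ * (‖c g‖ * ‖c h‖)) =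
        ‖c g‖ ^ 2 + δ * (‖c g‖ * ∑ h ∈ V, ‖c h‖) := by
      intro g hg
      rw [Finset.sum_add_distrib, Finset.sum_ite_eq, if_pos hg, ← Finset.mul_sum, ← Finset.mul_sum]
    rw [Finset.sum_congr rfl e4, Finset.sum_add_distrib, ← hC, ← Finset.mul_sum, ← Finset.sum_mul]
    ring
  have h3 : (∑ g ∈ V, ‖c g‖) ^ 2 ≤ V.card * C := by
    rw [hC]
    exact sq_sum_le_card_mul_sum_sq
  have hne : V.Nonempty := by
    rw [← Finset.card_pos]
    omega
  have h4 : (V.card : ℝ) * (‖y‖ ^ 2 / t) < C := by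
    rw [hC, ← nsmul_eq_mul, ← Finset.sum_const]
    exact Finset.sum_lt_sum_of_nonempty hne hy
  have hn : (2 * t : ℝ) < V.card := by exact_mod_cast hcon
  have hN : 0 ≤ ‖y‖ ^ 2 := sq_nonneg _
  have hCpos : 0 < C := lt_of_le_of_lt (by positivity) h4
  have h5 : C ^ 2 ≤ (‖w‖ * ‖y‖) ^ 2 := pow_le_pow_left₀ hC0 h1 2
  have h2' : ‖w‖ ^ 2 ≤ (1 + δ * V.card) * C := by
    have := mul_le_mul_of_nonneg_left h3 hδ0.le
    nlinarith
  have h6 : C ^ 2 ≤ ((1 + δ * V.card) * C) * ‖y‖ ^ 2 := by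
    rw [mul_pow] at h5
    exact h5.trans (mul_le_mul_of_nonneg_right h2' hN)
  have h7 : C ≤ (1 + δ * V.card) * ‖y‖ ^ 2 := by
    have : C * C ≤ C * ((1 + δ * V.card) * ‖y‖ ^ 2) := by nlinarith
    exact le_of_mul_le_mul_left this hCpos
  have h8 : (V.card : ℝ) * (‖y‖ ^ 2 / t) = 2 * (δ * V.card) * ‖y‖ ^ 2 := by
    rw [hδ]; field_simp
  have h9 : 1 ≤ δ * V.card := by
    rw [hδ, div_mul_eq_mul_div, one_mul, le_div_iff₀ (by positivity)]
    linarith
  rw [h8] at h4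
  have h10 : 0 ≤ (δ * V.card - 1) * ‖y‖ ^ 2 := mul_nonneg (by linarith) hN
  nlinarith

theorem exists_good {Λ : Type} [Fintype Λ] (v : Λ → H) (hv : Orthonormal ℂ v)
    (e : ℕ → H) (he : Bess e) {κ : Type} (G : Finset κ)
    (R : κ → EuclideanSpace ℂ Λ → Prop) (t : ℕ) (ht : 0 < t)
    (hR : ∀ g ∈ G, ∀ h ∈ G, g ≠ h → ∀ X Y, R g X → R h Y →
      ‖⟪X, Y⟫_ℂ‖ ≤ 1 / (2 * t) * ‖X‖ * ‖Y‖)
    (hG : 2 * t ^ 2 * Fintype.card Λ < G.card) :
    ∃ g ∈ G, ∀ n, ∀ X, R g X →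
      ‖⟪X, (WithLp.toLp 2 (fun f => ⟪v f, e n⟫_ℂ) : EuclideanSpace ℂ Λ)⟫_ℂ‖ ^ 2 ≤ ‖X‖ ^ 2 / t := by
  classical
  by_contra hcon
  push Not at hcon
  choose! n X hRX hX using hcon
  have ht0 : (0 : ℝ) < t := by exact_mod_cast ht
  set y : ℕ → EuclideanSpace ℂ Λ := fun k => WithLp.toLp 2 (fun f => ⟪v f, e k⟫_ℂ) with hy
  have hpos : ∀ g ∈ G, 0 < ‖X g‖ := by
    intro g hg
    rw [norm_pos_iff]
    intro h0
    have h1 := hX g hg
    rw [h0, inner_zero_left, norm_zero, norm_zero] at h1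
    norm_num at h1
  have hek : ∀ k, ‖e k‖ ^ 2 ≤ 1 := by
    intro k
    have h1 := he {k} (e k)
    rw [Finset.sum_singleton, inner_self_eq_norm_sq_to_K] at h1
    have h2 : ‖((‖e k‖ : ℂ)) ^ 2‖ = ‖e k‖ ^ 2 := by
      rw [norm_pow, Complex.norm_real, norm_norm]
    have h3 : (‖e k‖ ^ 2) ^ 2 ≤ ‖e k‖ ^ 2 := by
      have h4 : ‖((RCLike.ofReal ‖e k‖ : ℂ)) ^ 2‖ = ‖e k‖ ^ 2 := h2
      rw [h4] at h1
      exact h1
    by_contra h5
    push Not at h5
    nlinarith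
  have hyk : ∀ k, ‖y k‖ ^ 2 ≤ 1 := by
    intro k
    rw [EuclideanSpace.norm_sq_eq]
    have h4 := hv.sum_inner_products_le (e k) (s := Finset.univ)
    exact h4.trans (hek k)
  have hlow : ∀ g ∈ G, 1 / (t : ℝ) ≤ ‖y (n g)‖ ^ 2 := by
    intro g hg
    have h1 := hX g hg
    have h2 := hpos g hg
    have h3 : ‖⟪X g, y (n g)⟫_ℂ‖ ^ 2 ≤ ‖X g‖ ^ 2 * ‖y (n g)‖ ^ 2 := by
      rw [← mul_pow]
      exact pow_le_pow_left₀ (norm_nonneg _) (norm_inner_le_norm _ _) 2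
    have h4 : ‖X g‖ ^ 2 * (1 / t) < ‖X g‖ ^ 2 * ‖y (n g)‖ ^ 2 := by
      rw [mul_one_div]
      exact lt_of_lt_of_le h1 h3
    exact (lt_of_mul_lt_mul_left h4 (by positivity)).le
  have hcard : G.card ≤ (2 * t) * (G.image n).card := by
    apply Finset.card_le_mul_card_image
    intro k _
    apply bad_count t ht (G.filter (fun g => n g = k)) (fun g => ((‖X g‖⁻¹ : ℝ) : ℂ) • X g) (y k)
    · intro g hg
      have hg' := (Finset.mem_filter.mp hg).1
      rw [norm_smul, Complex.norm_real, norm_inv, norm_norm, inv_mul_cancel₀ (hpos g hg').ne']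
    · intro g hg h hh hgh
      have hg' := (Finset.mem_filter.mp hg).1
      have hh' := (Finset.mem_filter.mp hh).1
      have h1 := hR g hg' h hh' hgh (X g) (X h) (hRX g hg') (hRX h hh')
      have h2 := hpos g hg'
      have h3 := hpos h hh'
      rw [inner_smul_left, inner_smul_right, norm_mul, norm_mul, RCLike.norm_conj,
        Complex.norm_real, Complex.norm_real, norm_inv, norm_inv, norm_norm, norm_norm]
      have h4 : ‖X g‖⁻¹ * (‖X h‖⁻¹ * ‖⟪X g, X h⟫_ℂ‖) ≤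
          ‖X g‖⁻¹ * (‖X h‖⁻¹ * (1 / (2 * t) * ‖X g‖ * ‖X h‖)) := by
        gcongr
      refine h4.trans (le_of_eq ?_)
      field_simp
    · intro g hg
      have hg' := (Finset.mem_filter.mp hg).1
      have hgk := (Finset.mem_filter.mp hg).2
      have h1 := hX g hg'
      have h2 := hpos g hg'
      rw [hgk] at h1
      have h3 : ‖X g‖ ^ 2 / t < ‖⟪X g, y k⟫_ℂ‖ ^ 2 := h1
      rw [inner_smul_left, norm_mul, RCLike.norm_conj, Complex.norm_real, norm_inv, norm_norm,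
        mul_pow, inv_pow, inv_mul_eq_div, lt_div_iff₀ (by positivity)]
      have h5 : ‖y k‖ ^ 2 / t * ‖X g‖ ^ 2 ≤ ‖X g‖ ^ 2 / t := by
        rw [div_mul_eq_mul_div]
        apply div_le_div_of_nonneg_right _ ht0.le
        have := mul_le_mul_of_nonneg_right (hyk k) (sq_nonneg ‖X g‖)
        linarith
      linarith
  have hA : ((G.image n).card : ℝ) * (1 / t) ≤ Fintype.card Λ := by
    have h1 : ((G.image n).card : ℝ) * (1 / t) ≤ ∑ k ∈ G.image n, ‖y k‖ ^ 2 := by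
      rw [← nsmul_eq_mul]
      apply Finset.card_nsmul_le_sum
      intro k hk
      obtain ⟨g, hg, rfl⟩ := Finset.mem_image.mp hk
      exact hlow g hg
    have h2 : ∑ k ∈ G.image n, ‖y k‖ ^ 2 = ∑ f : Λ, ∑ k ∈ G.image n, ‖⟪e k, v f⟫_ℂ‖ ^ 2 := by
      rw [Finset.sum_comm]
      refine Finset.sum_congr rfl fun k _ => ?_
      rw [EuclideanSpace.norm_sq_eq]
      refine Finset.sum_congr rfl fun f _ => ?_
      rw [← norm_inner_symm]
    have h3 : ∑ f : Λ, ∑ k ∈ G.image n, ‖⟪e k, v f⟫_ℂ‖ ^ 2 ≤ ∑ _f : Λ, (1 : ℝ) := by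
      refine Finset.sum_le_sum fun f _ => ?_
      have h4 := he (G.image n) (v f)
      rwa [hv.norm_eq_one, one_pow] at h4
    rw [Finset.sum_const, Finset.card_univ, nsmul_eq_mul, mul_one] at h3
    linarith
  have hA2 : (G.image n).card ≤ Fintype.card Λ * t := by
    have h1 : ((G.image n).card : ℝ) ≤ Fintype.card Λ * t := by
      have h2 := mul_le_mul_of_nonneg_right hA ht0.le
      have h3 : ((G.image n).card : ℝ) * (1 / t) * t = (G.image n).card := by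
        field_simp
      linarith
    exact_mod_cast h1
  have h5 : (2 * t) * (G.image n).card ≤ (2 * t) * (Fintype.card Λ * t) := Nat.mul_le_mul_left _ hA2
  have h6 : (2 * t) * (Fintype.card Λ * t) = 2 * t ^ 2 * Fintype.card Λ := by ring
  omega

/-- arrays supported on the graph of `g` at the coordinate `s` and constant along this graph -/
def RR {S : Type} {q : ℕ} (s : S) (g : Fin q → Fin q)
    (X : (S → Fin q × Fin q) → ℂ) : Prop :=
  (∀ f, (f s).2 ≠ g (f s).1 → X f = 0) ∧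
  (∀ f f', (∀ t, t ≠ s → f t = f' t) → (f s).2 = g (f s).1 → (f' s).2 = g (f' s).1 → X f = X f')


theorem overlap {S : Type} [Fintype S] [DecidableEq S] {q t : ℕ} (hq : 0 < q) (ht : 0 < t) (s : S)
    (g h : Fin q → Fin q)
    (hag : 2 * t * (Finset.univ.filter (fun a => g a = h a)).card ≤ q)
    (X Y : EuclideanSpace ℂ (S → Fin q × Fin q)) (hX : RR s g (fun f => X f))
    (hY : RR s h (fun f => Y f)) :
    ‖⟪X, Y⟫_ℂ‖ ≤ 1 / (2 * t) * ‖X‖ * ‖Y‖ := by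
  classical
  let e := Equiv.funSplitAt s (Fin q × Fin q)
  have hes : ∀ p f2, (e.symm (p, f2)) s = p := by
    intro p f2
    simp [e, Equiv.funSplitAt, Equiv.piSplitAt]
  have heo : ∀ p f2 t (ht : t ≠ s), (e.symm (p, f2)) t = f2 ⟨t, ht⟩ := by
    intro p f2 t ht
    simp [e, Equiv.funSplitAt, Equiv.piSplitAt, ht]
  let a0 : Fin q := ⟨0, hq⟩
  have key : ∀ (g : Fin q → Fin q) (X : EuclideanSpace ℂ (S → Fin q × Fin q)),
      RR s g (fun f => X f) → ∃ X1 : EuclideanSpace ℂ ({t // t ≠ s} → Fin q × Fin q),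
      ∀ p f2, X (e.symm (p, f2)) = if p.2 = g p.1 then X1 f2 else 0 := by
    intro g X hX
    refine ⟨WithLp.toLp 2 (fun f2 => X (e.symm ((a0, g a0), f2))), ?_⟩
    intro p f2
    split_ifs with hp
    · refine hX.2 _ _ ?_ ?_ ?_
      · intro t ht
        rw [heo _ _ t ht, heo _ _ t ht]
      · rw [hes]; exact hp
      · rw [hes]
    · refine hX.1 _ ?_
      rw [hes]; exact hp
  obtain ⟨X1, hX1⟩ := key g X hX
  obtain ⟨Y1, hY1⟩ := key h Y hY
  have hsumC : ∀ (F : (S → Fin q × Fin q) → ℂ), ∑ f, F f =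
      ∑ p : Fin q × Fin q, ∑ f2 : {t // t ≠ s} → Fin q × Fin q, F (e.symm (p, f2)) := by
    intro F
    rw [← Fintype.sum_prod_type']
    exact (Equiv.sum_comp e.symm F).symm
  have hinn : ∀ (g h : Fin q → Fin q) (X Y : EuclideanSpace ℂ (S → Fin q × Fin q))
      (X1 Y1 : EuclideanSpace ℂ ({t // t ≠ s} → Fin q × Fin q)),
      (∀ p f2, X (e.symm (p, f2)) = if p.2 = g p.1 then X1 f2 else 0) →
      (∀ p f2, Y (e.symm (p, f2)) = if p.2 = h p.1 then Y1 f2 else 0) →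
      ⟪X, Y⟫_ℂ = ((Finset.univ.filter (fun a => g a = h a)).card : ℂ) * ⟪X1, Y1⟫_ℂ := by
    intro g h X Y X1 Y1 hX1 hY1
    rw [PiLp.inner_apply, PiLp.inner_apply, hsumC]
    have h1 : ∀ p : Fin q × Fin q, (∑ f2 : {t // t ≠ s} → Fin q × Fin q,
        ⟪X (e.symm (p, f2)), Y (e.symm (p, f2))⟫_ℂ) =
        if (p.2 = g p.1 ∧ p.2 = h p.1) then ∑ f2, ⟪X1 f2, Y1 f2⟫_ℂ else 0 := by
      intro p
      split_ifs with hp
      · refine Finset.sum_congr rfl fun f2 _ => ?_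
        rw [hX1, hY1, if_pos hp.1, if_pos hp.2]
      · refine Finset.sum_eq_zero fun f2 _ => ?_
        rw [hX1, hY1]
        by_cases h2 : p.2 = g p.1
        · have h3 : ¬ p.2 = h p.1 := fun h3 => hp ⟨h2, h3⟩
          rw [if_neg h3, inner_zero_right]
        · rw [if_neg h2, inner_zero_left]
    rw [Finset.sum_congr rfl (fun p _ => h1 p)]
    rw [← Finset.sum_filter, Finset.sum_const, nsmul_eq_mul]
    congr 2
    refine Finset.card_bij (fun p _ => p.1) ?_ ?_ ?_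
    · intro p hp
      simp only [Finset.mem_filter, Finset.mem_univ, true_and] at hp ⊢
      rw [← hp.1, ← hp.2]
    · intro p hp p' hp' hpp
      simp only [Finset.mem_filter, Finset.mem_univ, true_and] at hp hp'
      refine Prod.ext hpp ?_
      rw [hp.1, hp'.1]
      exact congrArg g hpp
    · intro a ha
      simp only [Finset.mem_filter, Finset.mem_univ, true_and] at ha
      exact ⟨(a, g a), by simp [ha], rfl⟩
  have hnorm : ∀ (g : Fin q → Fin q) (X : EuclideanSpace ℂ (S → Fin q × Fin q))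
      (X1 : EuclideanSpace ℂ ({t // t ≠ s} → Fin q × Fin q)),
      (∀ p f2, X (e.symm (p, f2)) = if p.2 = g p.1 then X1 f2 else 0) →
      ‖X‖ = Real.sqrt q * ‖X1‖ := by
    intro g X X1 hX1
    have h1 := hinn g g X X X1 X1 hX1 hX1
    rw [inner_self_eq_norm_sq_to_K, inner_self_eq_norm_sq_to_K] at h1
    simp only [Finset.filter_true, Finset.card_univ, Fintype.card_fin] at h1
    have h2 : ‖X‖ ^ 2 = q * ‖X1‖ ^ 2 := by
      have h4 : (((‖X‖ ^ 2 : ℝ)) : ℂ) = (((q : ℝ) * ‖X1‖ ^ 2 : ℝ) : ℂ) := by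
        push_cast
        exact h1
      exact Complex.ofReal_injective h4
    have h3 : ‖X‖ ^ 2 = (Real.sqrt q * ‖X1‖) ^ 2 := by
      rw [h2, mul_pow, Real.sq_sqrt (Nat.cast_nonneg q)]
    exact (pow_left_inj₀ (norm_nonneg _) (by positivity) (by norm_num)).1 h3
  rw [hinn g h X Y X1 Y1 hX1 hY1, hnorm g X X1 hX1, hnorm h Y Y1 hY1, norm_mul]
  have hcs : ‖⟪X1, Y1⟫_ℂ‖ ≤ ‖X1‖ * ‖Y1‖ := norm_inner_le_norm X1 Y1
  have hn : ‖((Finset.univ.filter (fun a => g a = h a)).card : ℂ)‖ ≤ 1 / (2 * t) * q := by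
    rw [Complex.norm_natCast]
    have h5 : (2 * t * (Finset.univ.filter (fun a => g a = h a)).card : ℝ) ≤ q := by exact_mod_cast hag
    have h6 : (0 : ℝ) < 2 * t := by positivity
    rw [one_div, inv_mul_eq_div, le_div_iff₀ h6]
    linarith
  have hqq : Real.sqrt q * Real.sqrt q = q := Real.mul_self_sqrt (Nat.cast_nonneg q)
  calc _ ≤ (1 / (2 * t) * (q : ℝ)) * (‖X1‖ * ‖Y1‖) :=
        mul_le_mul hn hcs (norm_nonneg _) (by positivity)
    _ = 1 / (2 * t) * (Real.sqrt q * ‖X1‖) * (Real.sqrt q * ‖Y1‖) := by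
        rw [show 1 / (2 * t) * (Real.sqrt q * ‖X1‖) * (Real.sqrt q * ‖Y1‖) =
          1 / (2 * t) * (Real.sqrt q * Real.sqrt q) * (‖X1‖ * ‖Y1‖) by ring, hqq]

/-- the coordinates of `x` in the `k`-th block -/
noncomputable def arr {Λ : ℕ → Type} [∀ k, Fintype (Λ k)] (β : HilbertBasis (Σ k, Λ k) ℂ H)
    (k : ℕ) (x : H) : EuclideanSpace ℂ (Λ k) := WithLp.toLp 2 (fun f => ⟪β ⟨k, f⟩, x⟫_ℂ)


/-- the random operator `∑ ± |a n⟩⟨a n|` -/
noncomputable def TT {E : Type*} [NormedAddCommGroup E] [InnerProductSpace ℂ E] {ι : Type}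
    [Fintype ι] (a : ι → E) (ε : ι → Bool) : E →L[ℂ] E :=
  ∑ n, ((sg (ε n) : ℝ) : ℂ) • (innerSL ℂ (a n)).smulRight (a n)

/-- the trace of the `2m`-th power, as a sum of squared norms of columns -/
noncomputable def FF {Λ ι : Type} [Fintype Λ] [DecidableEq Λ] [Fintype ι]
    (a : ι → EuclideanSpace ℂ Λ) (m : ℕ) (ε : ι → Bool) : ℝ :=
  ∑ f : Λ, ‖((TT a ε) ^ m) (EuclideanSpace.single f 1)‖ ^ 2

theorem pow_ineq_seq (s : ℕ → ℝ) (h0 : ∀ i, 0 ≤ s i) (h : ∀ i, s (i + 1) ^ 2 ≤ s i * s (i + 2)) :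
    ∀ i, s i ^ (i + 1) ≤ s (i + 1) ^ i * s 0 := by
  intro i
  induction i with
  | zero => simp
  | succ i ih =>
    rcases (h0 (i + 1)).eq_or_lt with h1 | h1
    · rw [← h1, zero_pow (by omega)]
      exact mul_nonneg (pow_nonneg (h0 _) _) (h0 _)
    · have h2 : (s (i + 1) ^ 2) ^ (i + 1) ≤ (s i * s (i + 2)) ^ (i + 1) :=
        pow_le_pow_left₀ (by positivity) (h i) _
      have h3 : s (i + 1) ^ i * s (i + 1) ^ (i + 2) ≤
          s (i + 1) ^ i * (s (i + 2) ^ (i + 1) * s 0) := by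
        calc s (i + 1) ^ i * s (i + 1) ^ (i + 2) = (s (i + 1) ^ 2) ^ (i + 1) := by ring
          _ ≤ (s i * s (i + 2)) ^ (i + 1) := h2
          _ = s i ^ (i + 1) * s (i + 2) ^ (i + 1) := mul_pow _ _ _
          _ ≤ (s (i + 1) ^ i * s 0) * s (i + 2) ^ (i + 1) :=
              mul_le_mul_of_nonneg_right ih (pow_nonneg (h0 _) _)
          _ = _ := by ring
      exact le_of_mul_le_mul_left h3 (by positivity)

theorem pow_ineq_A (s : ℕ → ℝ) (h0 : ∀ i, 0 ≤ s i) (h : ∀ i, s (i + 1) ^ 2 ≤ s i * s (i + 2))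
    (r : ℝ) (hr : 0 ≤ r) (M : ℕ) (hM : s M ≤ r ^ M * s 0) : ∀ i ≤ M, s i ≤ r ^ i * s 0 := by
  have hstep : ∀ i, s (i + 1) ≤ r ^ (i + 1) * s 0 → s i ≤ r ^ i * s 0 := by
    intro i hi
    have h1 := pow_ineq_seq s h0 h i
    have h2 : s i ^ (i + 1) ≤ (r ^ i * s 0) ^ (i + 1) := by
      calc s i ^ (i + 1) ≤ s (i + 1) ^ i * s 0 := h1
        _ ≤ (r ^ (i + 1) * s 0) ^ i * s 0 :=
            mul_le_mul_of_nonneg_right (pow_le_pow_left₀ (h0 _) hi i) (h0 0)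
        _ = _ := by ring
    exact (pow_le_pow_iff_left₀ (h0 i) (mul_nonneg (pow_nonneg hr i) (h0 0))
      (Nat.succ_ne_zero i)).1 h2
  intro i hi
  obtain ⟨k, rfl⟩ := Nat.exists_eq_add_of_le hi
  clear hi
  induction k with
  | zero => exact hM
  | succ k ih => exact ih (hstep _ hM)

theorem pow_ineq_sa {E : Type*} [NormedAddCommGroup E] [InnerProductSpace ℂ E] (X : E →L[ℂ] E)
    (hX : ∀ u v, ⟪X u, v⟫_ℂ = ⟪u, X v⟫_ℂ) (i : ℕ) (u v : E) :
    ⟪(X ^ i) u, v⟫_ℂ = ⟪u, (X ^ i) v⟫_ℂ := by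
  induction i generalizing u v with
  | zero => rfl
  | succ i ih =>
    have e1 : (X ^ (i + 1)) u = (X ^ i) (X u) := rfl
    have e2 : (X ^ (i + 1)) v = X ((X ^ i) v) := by
      rw [pow_succ']
      rfl
    rw [e1, e2, ih, hX]

theorem pow_ineq_one {E : Type*} [NormedAddCommGroup E] [InnerProductSpace ℂ E] (X : E →L[ℂ] E)
    (hX : ∀ u v, ⟪X u, v⟫_ℂ = ⟪u, X v⟫_ℂ) (a : E) (M j : ℕ) (hj : j ≤ 2 * M) (r : ℝ) (hr : 0 ≤ r)
    (hM : ‖(X ^ M) a‖ ≤ r ^ M * ‖a‖) : ‖⟪a, (X ^ j) a⟫_ℂ‖ ≤ r ^ j * ‖a‖ ^ 2 := by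
  have hlc : ∀ i, ‖(X ^ (i + 1)) a‖ ^ 2 ≤ ‖(X ^ i) a‖ * ‖(X ^ (i + 2)) a‖ := by
    intro i
    have e1 : (X ^ (i + 1)) a = X ((X ^ i) a) := by
      rw [pow_succ']
      rfl
    have e2 : (X ^ (i + 2)) a = X ((X ^ (i + 1)) a) := by
      rw [pow_succ' X (i + 1)]
      rfl
    have e3 : ⟪(X ^ (i + 1)) a, (X ^ (i + 1)) a⟫_ℂ = ⟪(X ^ i) a, (X ^ (i + 2)) a⟫_ℂ := by
      rw [e2, ← hX, ← e1]
    have e4 : ‖(X ^ (i + 1)) a‖ ^ 2 = ‖⟪(X ^ (i + 1)) a, (X ^ (i + 1)) a⟫_ℂ‖ := by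
      rw [inner_self_eq_norm_sq_to_K, norm_pow]
      simp
    rw [e4, e3]
    exact norm_inner_le_norm _ _
  have hA := pow_ineq_A (fun i => ‖(X ^ i) a‖) (fun i => norm_nonneg _) hlc r hr M hM
  have e0 : (X ^ 0) a = a := rfl
  rw [e0] at hA
  obtain ⟨i, i', hi, hi', hii⟩ : ∃ i i', i ≤ M ∧ i' ≤ M ∧ j = i + i' :=
    ⟨min j M, j - min j M, min_le_right _ _, by omega, by omega⟩
  have e5 : ⟪a, (X ^ j) a⟫_ℂ = ⟪(X ^ i) a, (X ^ i') a⟫_ℂ := by
    rw [hii, pow_add, pow_ineq_sa X hX]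
    rfl
  rw [e5]
  calc ‖⟪(X ^ i) a, (X ^ i') a⟫_ℂ‖ ≤ ‖(X ^ i) a‖ * ‖(X ^ i') a‖ := norm_inner_le_norm _ _
    _ ≤ (r ^ i * ‖a‖) * (r ^ i' * ‖a‖) :=
        mul_le_mul (hA i hi) (hA i' hi') (norm_nonneg _) (by positivity)
    _ = r ^ j * ‖a‖ ^ 2 := by rw [hii]; ring

theorem pow_ineq {E : Type*} [NormedAddCommGroup E] [InnerProductSpace ℂ E] (X Y : E →L[ℂ] E)
    (hX : ∀ u v, ⟪X u, v⟫_ℂ = ⟪u, X v⟫_ℂ) (hY : ∀ u v, ⟪Y u, v⟫_ℂ = ⟪u, Y v⟫_ℂ)
    (a : E) (M j : ℕ) (hj : j ≤ 2 * M) :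
    ‖⟪a, (X ^ j) a⟫_ℂ‖ * ‖⟪a, (Y ^ (2 * M - j)) a⟫_ℂ‖ ≤
      ‖a‖ ^ 2 * (‖(X ^ M) a‖ ^ 2 + ‖(Y ^ M) a‖ ^ 2) := by
  rcases eq_or_ne a 0 with ha | ha
  · subst ha
    simp
  have hapos : 0 < ‖a‖ := norm_pos_iff.2 ha
  obtain ⟨m, hm⟩ : ∃ m, m = max ‖(X ^ M) a‖ ‖(Y ^ M) a‖ := ⟨_, rfl⟩
  have hm0 : 0 ≤ m := by rw [hm]; exact le_max_of_le_left (norm_nonneg _)
  obtain ⟨r, hr, hrM⟩ : ∃ r : ℝ, 0 ≤ r ∧ m ≤ r ^ M * ‖a‖ ∧ r ^ M * ‖a‖ ≤ m := by
    rcases Nat.eq_zero_or_pos M with h | h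
    · refine ⟨0, le_rfl, ?_⟩
      subst h
      have e0 : (X ^ 0) a = a := rfl
      have e1 : (Y ^ 0) a = a := rfl
      rw [hm, e0, e1, max_self, pow_zero, one_mul]
      exact ⟨le_rfl, le_rfl⟩
    · refine ⟨(m / ‖a‖) ^ ((M : ℝ)⁻¹), Real.rpow_nonneg (by positivity) _, ?_⟩
      rw [Real.rpow_inv_natCast_pow (by positivity) (by omega), div_mul_cancel₀ _ hapos.ne']
      exact ⟨le_rfl, le_rfl⟩
  have h1 := pow_ineq_one X hX a M j hj r hr ((by rw [hm]; exact le_max_left _ _ :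
    ‖(X ^ M) a‖ ≤ m).trans hrM.1)
  have h2 := pow_ineq_one Y hY a M (2 * M - j) (by omega) r hr ((by rw [hm]; exact le_max_right _ _ :
    ‖(Y ^ M) a‖ ≤ m).trans hrM.1)
  have h3 : m ^ 2 ≤ ‖(X ^ M) a‖ ^ 2 + ‖(Y ^ M) a‖ ^ 2 := by
    rcases max_choice ‖(X ^ M) a‖ ‖(Y ^ M) a‖ with h | h
    · rw [hm, h]
      exact le_add_of_nonneg_right (by positivity)
    · rw [hm, h]
      exact le_add_of_nonneg_left (by positivity)
  calc ‖⟪a, (X ^ j) a⟫_ℂ‖ * ‖⟪a, (Y ^ (2 * M - j)) a⟫_ℂ‖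
      ≤ (r ^ j * ‖a‖ ^ 2) * (r ^ (2 * M - j) * ‖a‖ ^ 2) :=
        mul_le_mul h1 h2 (norm_nonneg _) (by positivity)
    _ = ‖a‖ ^ 2 * (r ^ M * ‖a‖) ^ 2 := by
        have e : r ^ j * r ^ (2 * M - j) = (r ^ M) ^ 2 := by
          rw [← pow_add, ← pow_mul]
          congr 1
          omega
        linear_combination (‖a‖ ^ 4) * e
    _ ≤ ‖a‖ ^ 2 * m ^ 2 := by
        refine mul_le_mul_of_nonneg_left ?_ (by positivity)
        exact pow_le_pow_left₀ (by positivity) hrM.2 2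
    _ ≤ _ := mul_le_mul_of_nonneg_left h3 (by positivity)

theorem k2_TT_apply {E : Type*} [NormedAddCommGroup E] [InnerProductSpace ℂ E] {ι : Type}
    [Fintype ι] (a : ι → E) (ε : ι → Bool) (u : E) :
    TT a ε u = ∑ n, ((sg (ε n) : ℝ) : ℂ) • (⟪a n, u⟫_ℂ • a n) := by
  unfold TT
  rw [ContinuousLinearMap.sum_apply]
  apply Finset.sum_congr rfl
  intro n _
  rfl

theorem k2_sg_sq (b : Bool) : sg b * sg b = 1 := by
  cases b <;> simp [sg]

theorem k2_sg_not (b : Bool) : sg b - sg (!b) = 2 * sg b := by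
  cases b <;> simp [sg] <;> norm_num

theorem k2_tele {R : Type*} [Ring R] (X Y : R) (N : ℕ) :
    X ^ (N + 1) - Y ^ (N + 1) = ∑ j ∈ Finset.range (N + 1), X ^ j * (X - Y) * Y ^ (N - j) := by
  induction N with
  | zero => simp
  | succ N ih =>
    rw [Finset.sum_range_succ]
    have h1 : ∑ j ∈ Finset.range (N + 1), X ^ j * (X - Y) * Y ^ (N + 1 - j) =
        (∑ j ∈ Finset.range (N + 1), X ^ j * (X - Y) * Y ^ (N - j)) * Y := by
      rw [Finset.sum_mul]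
      apply Finset.sum_congr rfl
      intro j hj
      rw [Finset.mem_range] at hj
      have h2 : N + 1 - j = (N - j) + 1 := by omega
      rw [h2, pow_succ, mul_assoc (X ^ j * (X - Y))]
    rw [h1, ← ih, Nat.sub_self, pow_zero, mul_one]
    rw [pow_succ X (N + 1), pow_succ Y (N + 1)]
    noncomm_ring

theorem k2_diff {E : Type*} [NormedAddCommGroup E] [InnerProductSpace ℂ E] {ι : Type}
    [Fintype ι] [DecidableEq ι] (a : ι → E) (n : ι) (ε : ι → Bool) (u : E) :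
    (TT a ε - TT a (Function.update ε n (!(ε n)))) u =
      ((2 * sg (ε n) : ℝ) : ℂ) • (⟪a n, u⟫_ℂ • a n) := by
  rw [ContinuousLinearMap.sub_apply, k2_TT_apply, k2_TT_apply, ← Finset.sum_sub_distrib]
  rw [Finset.sum_eq_single n]
  · rw [Function.update_self, ← sub_smul, ← k2_sg_not]
    push_cast
    rfl
  · intro b _ hb
    rw [Function.update_of_ne hb, sub_self]
  · intro h
    exact absurd (Finset.mem_univ n) h

theorem k2_inner {E : Type*} [NormedAddCommGroup E] [InnerProductSpace ℂ E] {ι : Type}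
    [Fintype ι] [DecidableEq ι] (a : ι → E) (n : ι) (ε : ι → Bool) (N : ℕ) :
    ⟪a n, ((TT a ε) ^ (N + 1)) (a n)⟫_ℂ -
      ⟪a n, ((TT a (Function.update ε n (!(ε n)))) ^ (N + 1)) (a n)⟫_ℂ =
    ∑ j ∈ Finset.range (N + 1), ((2 * sg (ε n) : ℝ) : ℂ) *
      (⟪a n, ((TT a ε) ^ j) (a n)⟫_ℂ *
        ⟪a n, ((TT a (Function.update ε n (!(ε n)))) ^ (N - j)) (a n)⟫_ℂ) := by
  rw [← inner_sub_right, ← ContinuousLinearMap.sub_apply, k2_tele, ContinuousLinearMap.sum_apply,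
    inner_sum]
  apply Finset.sum_congr rfl
  intro j _
  rw [ContinuousLinearMap.mul_apply, ContinuousLinearMap.mul_apply, k2_diff, map_smul, map_smul,
    inner_smul_right, inner_smul_right]
  ring

theorem TT_symm {E : Type*} [NormedAddCommGroup E] [InnerProductSpace ℂ E] {ι : Type}
    [Fintype ι] (a : ι → E) (ε : ι → Bool) (u v : E) :
    ⟪TT a ε u, v⟫_ℂ = ⟪u, TT a ε v⟫_ℂ := by
  rw [k2_TT_apply, k2_TT_apply, sum_inner, inner_sum]
  apply Finset.sum_congr rfl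
  intro n _
  rw [inner_smul_left, inner_smul_left, inner_smul_right, inner_smul_right, Complex.conj_ofReal,
    inner_conj_symm]
  ring
theorem flip_ineq {E : Type*} [NormedAddCommGroup E] [InnerProductSpace ℂ E] {ι : Type}
    [Fintype ι] [DecidableEq ι] (a : ι → E) (n : ι) (ε : ι → Bool) (M : ℕ) :
    sg (ε n) * ((⟪a n, ((TT a ε) ^ (2 * M + 1)) (a n)⟫_ℂ).re -
      (⟪a n, ((TT a (Function.update ε n (!(ε n)))) ^ (2 * M + 1)) (a n)⟫_ℂ).re) ≤
    2 * (2 * M + 1) * ‖a n‖ ^ 2 * (‖((TT a ε) ^ M) (a n)‖ ^ 2 +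
      ‖((TT a (Function.update ε n (!(ε n)))) ^ M) (a n)‖ ^ 2) := by
  have h0 := k2_inner a n ε (2 * M)
  have h1 := congrArg Complex.re h0
  rw [Complex.sub_re, Complex.re_sum] at h1
  rw [h1, Finset.mul_sum]
  have h2 : ∀ j ∈ Finset.range (2 * M + 1), sg (ε n) * (((2 * sg (ε n) : ℝ) : ℂ) *
      (⟪a n, ((TT a ε) ^ j) (a n)⟫_ℂ *
        ⟪a n, ((TT a (Function.update ε n (!(ε n)))) ^ (2 * M - j)) (a n)⟫_ℂ)).re ≤
      2 * (‖a n‖ ^ 2 * (‖((TT a ε) ^ M) (a n)‖ ^ 2 +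
      ‖((TT a (Function.update ε n (!(ε n)))) ^ M) (a n)‖ ^ 2)) := by
    intro j hj
    rw [Finset.mem_range] at hj
    rw [Complex.re_ofReal_mul]
    have h3 : sg (ε n) * (2 * sg (ε n) * (⟪a n, ((TT a ε) ^ j) (a n)⟫_ℂ *
        ⟪a n, ((TT a (Function.update ε n (!(ε n)))) ^ (2 * M - j)) (a n)⟫_ℂ).re) =
        (sg (ε n) * sg (ε n)) * (2 * (⟪a n, ((TT a ε) ^ j) (a n)⟫_ℂ *
        ⟪a n, ((TT a (Function.update ε n (!(ε n)))) ^ (2 * M - j)) (a n)⟫_ℂ).re) := by ring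
    rw [h3, k2_sg_sq, one_mul]
    have h4 := pow_ineq (TT a ε) (TT a (Function.update ε n (!(ε n)))) (TT_symm a ε)
      (TT_symm a _) (a n) M j (by omega)
    rw [← norm_mul] at h4
    have h5 := Complex.re_le_norm (⟪a n, ((TT a ε) ^ j) (a n)⟫_ℂ *
        ⟪a n, ((TT a (Function.update ε n (!(ε n)))) ^ (2 * M - j)) (a n)⟫_ℂ)
    linarith
  refine (Finset.sum_le_sum h2).trans (le_of_eq ?_)
  rw [Finset.sum_const, Finset.card_range, nsmul_eq_mul]
  push_cast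
  ring

theorem ff_apply {E : Type*} [NormedAddCommGroup E] [InnerProductSpace ℂ E] {ι : Type}
    [Fintype ι] (a : ι → E) (ε : ι → Bool) (v : E) :
    TT a ε v = ∑ n, ((sg (ε n) : ℝ) : ℂ) • (⟪a n, v⟫_ℂ • a n) := by
  unfold TT
  rw [ContinuousLinearMap.sum_apply]
  rfl

theorem ff_pow_symm {E : Type*} [NormedAddCommGroup E] [InnerProductSpace ℂ E] {ι : Type}
    [Fintype ι] (a : ι → E) (ε : ι → Bool) (k : ℕ) : ∀ (u v : E),
    ⟪((TT a ε) ^ k) u, v⟫_ℂ = ⟪u, ((TT a ε) ^ k) v⟫_ℂ := by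
  induction k with
  | zero => intro u v; simp
  | succ k ih =>
    intro u v
    have e1 : ((TT a ε) ^ (k + 1)) u = TT a ε (((TT a ε) ^ k) u) := by rw [pow_succ']; rfl
    have e2 : ((TT a ε) ^ (k + 1)) v = ((TT a ε) ^ k) (TT a ε v) := by rw [pow_succ]; rfl
    rw [e1, e2, TT_symm, ih]

theorem ff_single {Λ : Type} [Fintype Λ] [DecidableEq Λ] (x : EuclideanSpace ℂ Λ) :
    ∑ f, x f • EuclideanSpace.single f (1 : ℂ) = x := by
  have h := (EuclideanSpace.basisFun Λ ℂ).sum_repr x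
  simpa using h

/-- step 1 -/
theorem ff_one {Λ ι : Type} [Fintype Λ] [DecidableEq Λ] [Fintype ι]
    (a : ι → EuclideanSpace ℂ Λ) (M : ℕ) (ε : ι → Bool) :
    FF a (M + 1) ε = ∑ n, sg (ε n) * (⟪a n, ((TT a ε) ^ (2 * M + 1)) (a n)⟫_ℂ).re := by
  have h1 : ∀ f : Λ, ‖((TT a ε) ^ (M + 1)) (EuclideanSpace.single f 1)‖ ^ 2 =
      (⟪TT a ε (EuclideanSpace.single f 1),
        ((TT a ε) ^ (2 * M + 1)) (EuclideanSpace.single f 1)⟫_ℂ).re := by
    intro f
    have e0 : ‖((TT a ε) ^ (M + 1)) (EuclideanSpace.single f 1)‖ ^ 2 =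
        (⟪((TT a ε) ^ (M + 1)) (EuclideanSpace.single f 1),
          ((TT a ε) ^ (M + 1)) (EuclideanSpace.single f 1)⟫_ℂ).re :=
      (inner_self_eq_norm_sq (𝕜 := ℂ) _).symm
    rw [e0]
    congr 1
    have e1 : ((TT a ε) ^ (M + 1)) (EuclideanSpace.single f 1) =
        ((TT a ε) ^ M) (TT a ε (EuclideanSpace.single f 1)) := by rw [pow_succ]; rfl
    conv_lhs => rw [e1, ff_pow_symm]
    congr 1
    have e2 : (TT a ε) ^ (2 * M + 1) = (TT a ε) ^ M * (TT a ε) ^ (M + 1) := by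
      rw [← pow_add]; congr 1; ring
    rw [e2, ← e1]
    rfl
  have h2 : ∀ (f : Λ) (w : EuclideanSpace ℂ Λ), ⟪TT a ε (EuclideanSpace.single f 1), w⟫_ℂ =
      ∑ n, ((sg (ε n) : ℝ) : ℂ) * ((a n) f * ⟪a n, w⟫_ℂ) := by
    intro f w
    rw [ff_apply, sum_inner]
    apply Finset.sum_congr rfl
    intro n _
    rw [inner_smul_left, inner_smul_left, Complex.conj_ofReal, inner_conj_symm,
      EuclideanSpace.inner_single_left, map_one, one_mul]
  unfold FF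
  simp only [h1, h2]
  rw [← Complex.re_sum, Finset.sum_comm, Complex.re_sum]
  apply Finset.sum_congr rfl
  intro n _
  rw [← Finset.mul_sum, Complex.re_ofReal_mul]
  congr 2
  have h3 : ((TT a ε) ^ (2 * M + 1)) (a n) =
      ∑ f, (a n) f • ((TT a ε) ^ (2 * M + 1)) (EuclideanSpace.single f 1) := by
    conv_lhs => rw [← ff_single (a n)]
    rw [map_sum]
    simp only [map_smul]
  rw [h3, inner_sum]
  apply Finset.sum_congr rfl
  intro f _
  rw [inner_smul_right]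

/-- flip of one sign -/
def ff_flip {ι : Type} [DecidableEq ι] (n : ι) (ε : ι → Bool) : ι → Bool :=
  Function.update ε n (!(ε n))

theorem ff_flip_inv {ι : Type} [DecidableEq ι] (n : ι) : Function.Involutive (ff_flip n) := by
  intro ε
  funext m
  unfold ff_flip
  by_cases h : m = n
  · subst h
    simp
  · simp [h]

theorem ff_flip_sg {ι : Type} [DecidableEq ι] (n : ι) (ε : ι → Bool) :
    sg (ff_flip n ε n) = - sg (ε n) := by
  unfold ff_flip sg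
  rw [Function.update_self]
  cases ε n <;> simp

theorem ff_sum_flip {ι : Type} [Fintype ι] [DecidableEq ι] (n : ι) (g : (ι → Bool) → ℝ) :
    ∑ ε, g (ff_flip n ε) = ∑ ε, g ε :=
  Fintype.sum_equiv (ff_flip_inv n).toPerm _ _ (fun _ => rfl)

/-- step 3 -/
theorem ff_three {Λ ι : Type} [Fintype Λ] [DecidableEq Λ] [Fintype ι]
    (a : ι → EuclideanSpace ℂ Λ)
    (hB : ∀ z, ∑ n, ‖⟪a n, z⟫_ℂ‖ ^ 2 ≤ ‖z‖ ^ 2) (M : ℕ) (ε : ι → Bool) :
    ∑ n, ‖((TT a ε) ^ M) (a n)‖ ^ 2 ≤ FF a M ε := by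
  have h1 : ∀ n, ‖((TT a ε) ^ M) (a n)‖ ^ 2 =
      ∑ f, ‖⟪a n, ((TT a ε) ^ M) (EuclideanSpace.single f 1)⟫_ℂ‖ ^ 2 := by
    intro n
    rw [EuclideanSpace.norm_sq_eq]
    apply Finset.sum_congr rfl
    intro f _
    have e1 : (((TT a ε) ^ M) (a n)) f = ⟪EuclideanSpace.single f (1 : ℂ), ((TT a ε) ^ M) (a n)⟫_ℂ := by
      rw [EuclideanSpace.inner_single_left, map_one, one_mul]
    rw [e1, ← ff_pow_symm, norm_inner_symm]
  simp only [h1]
  rw [Finset.sum_comm]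
  unfold FF
  apply Finset.sum_le_sum
  intro f _
  exact hB _

theorem FF_rec {Λ ι : Type} [Fintype Λ] [DecidableEq Λ] [Fintype ι] [DecidableEq ι]
    (a : ι → EuclideanSpace ℂ Λ) (δ : ℝ) (hδ0 : 0 ≤ δ) (hδ : ∀ n, ‖a n‖ ^ 2 ≤ δ)
    (hB : ∀ z, ∑ n, ‖⟪a n, z⟫_ℂ‖ ^ 2 ≤ ‖z‖ ^ 2) (M : ℕ) :
    ∑ ε : ι → Bool, FF a (M + 1) ε ≤ 2 * (2 * M + 1) * δ * ∑ ε : ι → Bool, FF a M ε := by
  simp only [ff_one]
  rw [Finset.sum_comm]
  -- step 2
  have h2 : ∀ n, ∑ ε : ι → Bool, sg (ε n) * (⟪a n, ((TT a ε) ^ (2 * M + 1)) (a n)⟫_ℂ).re ≤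
      2 * (2 * M + 1) * δ * ∑ ε : ι → Bool, ‖((TT a ε) ^ M) (a n)‖ ^ 2 := by
    intro n
    set X : (ι → Bool) → ℝ := fun ε => (⟪a n, ((TT a ε) ^ (2 * M + 1)) (a n)⟫_ℂ).re with hX
    set Z : (ι → Bool) → ℝ := fun ε => ‖((TT a ε) ^ M) (a n)‖ ^ 2 with hZ
    have e1 : ∑ ε : ι → Bool, sg (ε n) * X ε = - ∑ ε : ι → Bool, sg (ε n) * X (ff_flip n ε) := by
      rw [← ff_sum_flip n (fun ε => sg (ε n) * X ε), ← Finset.sum_neg_distrib]
      apply Finset.sum_congr rfl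
      intro ε _
      rw [ff_flip_sg]
      ring
    have e2 : 2 * ∑ ε : ι → Bool, sg (ε n) * X ε =
        ∑ ε : ι → Bool, sg (ε n) * (X ε - X (ff_flip n ε)) := by
      have : ∑ ε : ι → Bool, sg (ε n) * (X ε - X (ff_flip n ε)) =
          ∑ ε : ι → Bool, sg (ε n) * X ε - ∑ ε : ι → Bool, sg (ε n) * X (ff_flip n ε) := by
        rw [← Finset.sum_sub_distrib]
        apply Finset.sum_congr rfl
        intro ε _
        ring
      rw [this]
      linarith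
    have e3 : ∑ ε : ι → Bool, sg (ε n) * (X ε - X (ff_flip n ε)) ≤
        ∑ ε : ι → Bool, 2 * (2 * M + 1) * ‖a n‖ ^ 2 * (Z ε + Z (ff_flip n ε)) := by
      apply Finset.sum_le_sum
      intro ε _
      exact flip_ineq a n ε M
    have e4 : ∑ ε : ι → Bool, 2 * (2 * (M : ℝ) + 1) * ‖a n‖ ^ 2 * (Z ε + Z (ff_flip n ε)) =
        2 * (2 * (2 * (M : ℝ) + 1) * ‖a n‖ ^ 2 * ∑ ε : ι → Bool, Z ε) := by
      rw [← Finset.mul_sum, Finset.sum_add_distrib, ff_sum_flip n Z]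
      ring
    have hZ0 : 0 ≤ ∑ ε : ι → Bool, Z ε := Finset.sum_nonneg fun ε _ => by positivity
    have e5 : 2 * (2 * (M : ℝ) + 1) * ‖a n‖ ^ 2 * ∑ ε : ι → Bool, Z ε ≤
        2 * (2 * (M : ℝ) + 1) * δ * ∑ ε : ι → Bool, Z ε := by
      apply mul_le_mul_of_nonneg_right _ hZ0
      apply mul_le_mul_of_nonneg_left (hδ n) (by positivity)
    show ∑ ε : ι → Bool, sg (ε n) * X ε ≤ 2 * (2 * (M : ℝ) + 1) * δ * ∑ ε : ι → Bool, Z ε
    linarith
  refine (Finset.sum_le_sum fun n _ => h2 n).trans ?_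
  rw [← Finset.mul_sum, Finset.sum_comm]
  apply mul_le_mul_of_nonneg_left _ (by positivity)
  exact Finset.sum_le_sum fun ε _ => ff_three a hB M ε

theorem moment_hs {Λ : Type} [Fintype Λ] [DecidableEq Λ]
    (S : EuclideanSpace ℂ Λ →L[ℂ] EuclideanSpace ℂ Λ) :
    ‖S‖ ^ 2 ≤ ∑ f : Λ, ‖S (EuclideanSpace.single f 1)‖ ^ 2 := by
  have h0 : 0 ≤ ∑ f : Λ, ‖S (EuclideanSpace.single f 1)‖ ^ 2 :=
    Finset.sum_nonneg fun _ _ => sq_nonneg _
  have h1 : ‖S‖ ≤ √(∑ f : Λ, ‖S (EuclideanSpace.single f 1)‖ ^ 2) := by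
    apply ContinuousLinearMap.opNorm_le_bound _ (Real.sqrt_nonneg _)
    intro u
    have hu : u = ∑ f : Λ, u f • (EuclideanSpace.single f (1 : ℂ) : EuclideanSpace ℂ Λ) := by
      have := (EuclideanSpace.basisFun Λ ℂ).sum_repr u
      simp only [EuclideanSpace.basisFun_repr, EuclideanSpace.basisFun_apply] at this
      exact this.symm
    have h2 : S u = ∑ f : Λ, u f • S (EuclideanSpace.single f (1 : ℂ)) := by
      conv_lhs => rw [hu]
      rw [map_sum]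
      simp only [map_smul]
    have h3 : ‖S u‖ ≤ ∑ f : Λ, ‖u f‖ * ‖S (EuclideanSpace.single f (1 : ℂ))‖ := by
      rw [h2]
      refine (norm_sum_le _ _).trans (le_of_eq ?_)
      simp only [norm_smul]
    have h4 := Real.sum_mul_le_sqrt_mul_sqrt Finset.univ (fun f => ‖u f‖)
      (fun f => ‖S (EuclideanSpace.single f (1 : ℂ))‖)
    have h5 : ‖u‖ = √(∑ f : Λ, ‖u f‖ ^ 2) := EuclideanSpace.norm_eq u
    rw [h5, mul_comm]
    exact h3.trans h4
  calc ‖S‖ ^ 2 ≤ (√(∑ f : Λ, ‖S (EuclideanSpace.single f 1)‖ ^ 2)) ^ 2 :=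
        pow_le_pow_left₀ (norm_nonneg _) h1 2
    _ = _ := Real.sq_sqrt h0

theorem moment_norm {Λ ι : Type} [Fintype Λ] [DecidableEq Λ] [Fintype ι]
    (a : ι → EuclideanSpace ℂ Λ) (ε : ι → Bool) (j : ℕ) :
    ‖TT a ε‖ ^ (2 * 2 ^ j) ≤ FF a (2 ^ j) ε := by
  have hsa : IsSelfAdjoint (TT a ε) := by
    rw [ContinuousLinearMap.isSelfAdjoint_iff_isSymmetric]
    intro u v
    exact TT_symm a ε u v
  have h1 := moment_hs ((TT a ε) ^ (2 ^ j))
  rw [hsa.norm_pow_two_pow] at h1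
  rw [mul_comm, pow_mul]
  exact h1

theorem moment_iter {Λ ι : Type} [Fintype Λ] [DecidableEq Λ] [Fintype ι] [DecidableEq ι]
    (a : ι → EuclideanSpace ℂ Λ) (δ : ℝ) (hδ0 : 0 ≤ δ) (hδ : ∀ n, ‖a n‖ ^ 2 ≤ δ)
    (hB : ∀ z, ∑ n, ‖⟪a n, z⟫_ℂ‖ ^ 2 ≤ ‖z‖ ^ 2) (p m : ℕ) (hm : m ≤ p) :
    ∑ ε : ι → Bool, FF a m ε ≤ (4 * p * δ) ^ m * (2 ^ Fintype.card ι * Fintype.card Λ) := by
  induction m with
  | zero =>
    have h1 : ∀ ε : ι → Bool, FF a 0 ε = Fintype.card Λ := by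
      intro ε
      unfold FF
      simp
    simp only [h1]
    rw [Finset.sum_const, Finset.card_univ, Fintype.card_fun, Fintype.card_bool]
    simp
  | succ m ih =>
    have ih' := ih (by omega)
    refine (FF_rec a δ hδ0 hδ hB m).trans ?_
    have hmp : ((m : ℝ) + 1) ≤ p := by exact_mod_cast hm
    have hc : 2 * (2 * (m : ℝ) + 1) * δ ≤ 4 * p * δ := by
      apply mul_le_mul_of_nonneg_right _ hδ0
      linarith
    have h0 : 0 ≤ 2 * (2 * (m : ℝ) + 1) * δ := by positivity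
    have hR : 0 ≤ (4 * p * δ) ^ m * (2 ^ Fintype.card ι * (Fintype.card Λ : ℝ)) := by positivity
    calc 2 * (2 * (m : ℝ) + 1) * δ * ∑ ε : ι → Bool, FF a m ε
        ≤ 2 * (2 * (m : ℝ) + 1) * δ *
          ((4 * p * δ) ^ m * (2 ^ Fintype.card ι * (Fintype.card Λ : ℝ))) :=
          mul_le_mul_of_nonneg_left ih' h0
      _ ≤ (4 * p * δ) * ((4 * p * δ) ^ m * (2 ^ Fintype.card ι * (Fintype.card Λ : ℝ))) :=
          mul_le_mul_of_nonneg_right hc hR
      _ = _ := by ring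

theorem moment {Λ ι : Type} [Fintype Λ] [Fintype ι] [DecidableEq ι]
    (a : ι → EuclideanSpace ℂ Λ) (δ : ℝ) (hδ0 : 0 ≤ δ) (hδ : ∀ n, ‖a n‖ ^ 2 ≤ δ)
    (hB : ∀ z, ∑ n, ‖⟪a n, z⟫_ℂ‖ ^ 2 ≤ ‖z‖ ^ 2) (j : ℕ) :
    ∑ ε : ι → Bool, ‖TT a ε‖ ^ (2 * 2 ^ j) ≤
      2 ^ Fintype.card ι * ((4 * 2 ^ j * δ) ^ (2 ^ j) * Fintype.card Λ) := by
  classical
  have h1 := moment_iter a δ hδ0 hδ hB (2 ^ j) (2 ^ j) le_rfl
  refine (Finset.sum_le_sum fun ε _ => moment_norm a ε j).trans (h1.trans (le_of_eq ?_))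
  push_cast
  ring

theorem cr_cs {κ : Type} [Fintype κ] (x y : κ → ℂ) :
    ‖∑ i, x i * y i‖ ^ 2 ≤ (∑ i, ‖x i‖ ^ 2) * ∑ i, ‖y i‖ ^ 2 := by
  have h1 : ‖∑ i, x i * y i‖ ≤ ∑ i, ‖x i‖ * ‖y i‖ := by
    refine le_trans (norm_sum_le _ _) (le_of_eq ?_)
    exact Finset.sum_congr rfl fun i _ => norm_mul _ _
  exact le_trans (pow_le_pow_left₀ (norm_nonneg _) h1 2)
    (Finset.sum_mul_sq_le_sq_mul_sq Finset.univ (fun i => ‖x i‖) (fun i => ‖y i‖))

theorem cr_sg_sq (b : Bool) : sg b * sg b = 1 := by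
  cases b <;> norm_num [sg]

theorem cr_sg_not (b : Bool) : sg (!b) = - sg b := by
  cases b <;> norm_num [sg]

theorem cr_orth {ι : Type} [Fintype ι] [DecidableEq ι] (n m : ι) (h : n ≠ m) :
    ∑ ε : ι → Bool, sg (ε n) * sg (ε m) = 0 := by
  have hinv : Function.Involutive (fun ε : ι → Bool => Function.update ε n (!(ε n))) := by
    intro ε
    funext k
    by_cases hk : k = n
    · rw [hk]
      simp
    · simp [Function.update_of_ne hk]
  obtain ⟨e, he⟩ : ∃ e : Equiv.Perm (ι → Bool), ∀ ε, e ε = Function.update ε n (!(ε n)) :=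
    ⟨hinv.toPerm _, fun _ => rfl⟩
  have h1 := Equiv.sum_comp e (fun ε : ι → Bool => sg (ε n) * sg (ε m))
  have h2 : ∀ ε : ι → Bool, sg ((e ε) n) * sg ((e ε) m) = -(sg (ε n) * sg (ε m)) := by
    intro ε
    rw [he, Function.update_self, Function.update_of_ne h.symm, cr_sg_not]
    ring
  rw [Finset.sum_congr rfl (fun ε _ => h2 ε), Finset.sum_neg_distrib] at h1
  linarith

theorem cr_rad_real {ι : Type} [Fintype ι] [DecidableEq ι] (r : ι → ℝ) :
    ∑ ε : ι → Bool, (∑ n, sg (ε n) * r n) ^ 2 = 2 ^ Fintype.card ι * ∑ n, r n ^ 2 := by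
  have h1 : ∀ ε : ι → Bool, (∑ n, sg (ε n) * r n) ^ 2 =
      ∑ n, ∑ m, (sg (ε n) * sg (ε m)) * (r n * r m) := by
    intro ε
    rw [sq, Finset.sum_mul_sum]
    refine Finset.sum_congr rfl fun n _ => Finset.sum_congr rfl fun m _ => ?_
    ring
  rw [Finset.sum_congr rfl (fun ε _ => h1 ε), Finset.sum_comm, Finset.mul_sum]
  refine Finset.sum_congr rfl fun n _ => ?_
  rw [Finset.sum_comm, Finset.sum_eq_single n]
  · rw [← Finset.sum_mul]
    have h2 : ∑ ε : ι → Bool, sg (ε n) * sg (ε n) = 2 ^ Fintype.card ι := by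
      rw [Finset.sum_congr rfl (fun ε _ => cr_sg_sq (ε n)), Finset.sum_const, Finset.card_univ]
      simp
    rw [h2]
    ring
  · intro m _ hm
    rw [← Finset.sum_mul, cr_orth n m hm.symm, zero_mul]
  · intro h
    exact absurd (Finset.mem_univ n) h

theorem cr_rad {ι : Type} [Fintype ι] [DecidableEq ι] (x : ι → ℂ) :
    ∑ ε : ι → Bool, ‖∑ n, ((sg (ε n) : ℝ) : ℂ) * x n‖ ^ 2 =
      2 ^ Fintype.card ι * ∑ n, ‖x n‖ ^ 2 := by
  have h1 : ∀ ε : ι → Bool, ‖∑ n, ((sg (ε n) : ℝ) : ℂ) * x n‖ ^ 2 =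
      (∑ n, sg (ε n) * (x n).re) ^ 2 + (∑ n, sg (ε n) * (x n).im) ^ 2 := by
    intro ε
    have e1 : (∑ n, ((sg (ε n) : ℝ) : ℂ) * x n).re = ∑ n, sg (ε n) * (x n).re := by
      rw [Complex.re_sum]
      exact Finset.sum_congr rfl fun n _ => Complex.re_ofReal_mul _ _
    have e2 : (∑ n, ((sg (ε n) : ℝ) : ℂ) * x n).im = ∑ n, sg (ε n) * (x n).im := by
      rw [Complex.im_sum]
      exact Finset.sum_congr rfl fun n _ => Complex.im_ofReal_mul _ _
    rw [← Complex.normSq_eq_norm_sq, Complex.normSq_apply, e1, e2]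
    ring
  rw [Finset.sum_congr rfl (fun ε _ => h1 ε), Finset.sum_add_distrib, cr_rad_real, cr_rad_real,
    ← mul_add, ← Finset.sum_add_distrib]
  congr 1
  refine Finset.sum_congr rfl fun n _ => ?_
  rw [← Complex.normSq_eq_norm_sq, Complex.normSq_apply]
  ring

theorem cross {Λ Λ' ι : Type} [Fintype Λ] [Fintype Λ'] [Fintype ι] [DecidableEq ι]
    (a : ι → EuclideanSpace ℂ Λ) (b : ι → EuclideanSpace ℂ Λ') (δ : ℝ) (hδ0 : 0 ≤ δ)
    (hb : ∀ n, ‖b n‖ ^ 2 ≤ δ) (hB : ∀ z, ∑ n, ‖⟪a n, z⟫_ℂ‖ ^ 2 ≤ ‖z‖ ^ 2) :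
    ∃ S : (ι → Bool) → ℝ, (∀ ε, 0 ≤ S ε) ∧
      (∀ ε z w, ‖∑ n, ((sg (ε n) : ℝ) : ℂ) * (⟪z, a n⟫_ℂ * ⟪b n, w⟫_ℂ)‖ ^ 2 ≤
        S ε * (‖z‖ ^ 2 * ‖w‖ ^ 2)) ∧
      ∑ ε, S ε ≤ 2 ^ Fintype.card ι * (δ * Fintype.card Λ) := by
  classical
  refine ⟨fun ε => ∑ q : Λ × Λ', ‖∑ n, ((sg (ε n) : ℝ) : ℂ) *
    (a n q.1 * (starRingEnd ℂ) (b n q.2))‖ ^ 2, ?_, ?_, ?_⟩
  · intro ε
    exact Finset.sum_nonneg fun q _ => sq_nonneg _
  · intro ε z w
    have h1 : ∑ n, ((sg (ε n) : ℝ) : ℂ) * (⟪z, a n⟫_ℂ * ⟪b n, w⟫_ℂ) =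
        ∑ q : Λ × Λ', (∑ n, ((sg (ε n) : ℝ) : ℂ) * (a n q.1 * (starRingEnd ℂ) (b n q.2))) *
          ((starRingEnd ℂ) (z q.1) * w q.2) := by
      have h2 : ∀ n, ((sg (ε n) : ℝ) : ℂ) * (⟪z, a n⟫_ℂ * ⟪b n, w⟫_ℂ) =
          ∑ q : Λ × Λ', (((sg (ε n) : ℝ) : ℂ) * (a n q.1 * (starRingEnd ℂ) (b n q.2))) *
          ((starRingEnd ℂ) (z q.1) * w q.2) := by
        intro n
        rw [PiLp.inner_apply, PiLp.inner_apply, Finset.sum_mul_sum, Finset.mul_sum,
          Fintype.sum_prod_type]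
        refine Finset.sum_congr rfl fun f _ => ?_
        rw [Finset.mul_sum]
        refine Finset.sum_congr rfl fun g _ => ?_
        rw [RCLike.inner_apply, RCLike.inner_apply]
        ring
      rw [Finset.sum_congr rfl (fun n _ => h2 n), Finset.sum_comm]
      refine Finset.sum_congr rfl fun q _ => ?_
      rw [Finset.sum_mul]
    rw [h1]
    refine le_trans (cr_cs _ _) (le_of_eq ?_)
    congr 1
    rw [EuclideanSpace.norm_sq_eq, EuclideanSpace.norm_sq_eq, Finset.sum_mul_sum,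
      Fintype.sum_prod_type]
    refine Finset.sum_congr rfl fun f _ => Finset.sum_congr rfl fun g _ => ?_
    rw [norm_mul, RCLike.norm_conj, mul_pow]
  · rw [Finset.sum_comm]
    rw [Finset.sum_congr rfl (fun q _ => cr_rad
      (fun n => a n (q : Λ × Λ').1 * (starRingEnd ℂ) (b n q.2)))]
    rw [← Finset.mul_sum]
    refine mul_le_mul_of_nonneg_left ?_ (by positivity)
    rw [Finset.sum_comm]
    have h1 : ∀ n, ∑ q : Λ × Λ', ‖a n q.1 * (starRingEnd ℂ) (b n q.2)‖ ^ 2 =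
        ‖a n‖ ^ 2 * ‖b n‖ ^ 2 := by
      intro n
      rw [EuclideanSpace.norm_sq_eq, EuclideanSpace.norm_sq_eq, Finset.sum_mul_sum,
        Fintype.sum_prod_type]
      refine Finset.sum_congr rfl fun f _ => Finset.sum_congr rfl fun g _ => ?_
      rw [norm_mul, RCLike.norm_conj, mul_pow]
    rw [Finset.sum_congr rfl (fun n _ => h1 n)]
    have h2 : ∑ n, ‖a n‖ ^ 2 * ‖b n‖ ^ 2 ≤ ∑ n, ‖a n‖ ^ 2 * δ :=
      Finset.sum_le_sum fun n _ => mul_le_mul_of_nonneg_left (hb n) (sq_nonneg _)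
    have h3 : ∑ n, ‖a n‖ ^ 2 ≤ (Fintype.card Λ : ℝ) := by
      have h4 : ∑ n, ‖a n‖ ^ 2 = ∑ f : Λ, ∑ n, ‖a n f‖ ^ 2 := by
        rw [Finset.sum_comm]
        exact Finset.sum_congr rfl fun n _ => EuclideanSpace.norm_sq_eq _
      rw [h4]
      have h5 : ∀ f : Λ, ∑ n, ‖a n f‖ ^ 2 ≤ 1 := by
        intro f
        have h6 := hB (EuclideanSpace.single f (1:ℂ))
        have h7 : ∀ n, ‖⟪a n, EuclideanSpace.single f (1:ℂ)⟫_ℂ‖ ^ 2 = ‖a n f‖ ^ 2 := by
          intro n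
          rw [EuclideanSpace.inner_single_right, one_mul, RCLike.norm_conj]
        rw [Finset.sum_congr rfl (fun n _ => h7 n)] at h6
        have h8 : ‖EuclideanSpace.single f (1:ℂ)‖ = 1 := by simp
        rw [h8, one_pow] at h6
        exact h6
      calc ∑ f : Λ, ∑ n, ‖a n f‖ ^ 2 ≤ ∑ f : Λ, (1:ℝ) := Finset.sum_le_sum fun f _ => h5 f
        _ = Fintype.card Λ := by simp
    calc ∑ n, ‖a n‖ ^ 2 * ‖b n‖ ^ 2 ≤ ∑ n, ‖a n‖ ^ 2 * δ := h2
      _ = δ * ∑ n, ‖a n‖ ^ 2 := by rw [← Finset.sum_mul, mul_comm]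
      _ ≤ δ * Fintype.card Λ := mul_le_mul_of_nonneg_left h3 hδ0

theorem select_geom (K : ℕ) : ∑ k ∈ Finset.range K, (1 / 2 : ℝ) ^ k ≤ 2 := by
  have h : ∑ k ∈ Finset.range K, (1 / 2 : ℝ) ^ k = 2 - 2 * (1 / 2) ^ K := by
    induction K with
    | zero => simp
    | succ K ih => rw [Finset.sum_range_succ, ih, pow_succ]; ring
  rw [h]
  have : (0 : ℝ) ≤ (1 / 2) ^ K := by positivity
  linarith

theorem select_A {Λ ι : Type} [Fintype Λ] [Fintype ι] [DecidableEq ι] (t k : ℕ) (ht : 0 < t)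
    (hp : (64 * 2 ^ (k + 3)) ^ (2 ^ (k + 3)) * Fintype.card Λ * 2 ^ (k + 2) ≤
      t ^ (2 ^ (k + 3)))
    (a : ι → EuclideanSpace ℂ Λ) (ha : ∀ n, ‖a n‖ ^ 2 ≤ 1 / (t : ℝ))
    (hB : ∀ z, ∑ n, ‖⟪a n, z⟫_ℂ‖ ^ 2 ≤ ‖z‖ ^ 2) :
    ∑ ε : ι → Bool, ‖TT a ε‖ ^ (2 * 2 ^ (k + 3)) * 4 ^ (2 * 2 ^ (k + 3)) ≤
      2 ^ Fintype.card ι * (1 / 2 ^ (k + 2)) := by
  have htr : (0 : ℝ) < t := by exact_mod_cast ht
  have h := moment a (1 / (t : ℝ)) (by positivity) ha hB (k + 3)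
  have hpr : ((64 * 2 ^ (k + 3) : ℝ)) ^ (2 ^ (k + 3)) * (Fintype.card Λ : ℝ) * 2 ^ (k + 2)
      ≤ (t : ℝ) ^ (2 ^ (k + 3)) := by exact_mod_cast hp
  rw [← Finset.sum_mul]
  generalize 2 ^ (k + 3) = p at h hpr ⊢
  have e16 : (4 : ℝ) ^ (2 * p) = 16 ^ p := by
    rw [pow_mul]; norm_num
  calc (∑ ε : ι → Bool, ‖TT a ε‖ ^ (2 * p)) * 4 ^ (2 * p)
      ≤ (2 ^ Fintype.card ι * ((4 * 2 ^ (k + 3) * (1 / (t : ℝ))) ^ p * Fintype.card Λ))
        * 4 ^ (2 * p) := mul_le_mul_of_nonneg_right h (by positivity)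
    _ = 2 ^ Fintype.card ι * (((64 * 2 ^ (k + 3) : ℝ) ^ p * Fintype.card Λ) / (t : ℝ) ^ p) := by
        rw [e16]
        have : (64 * 2 ^ (k + 3) : ℝ) ^ p / (t : ℝ) ^ p
            = (4 * 2 ^ (k + 3) * (1 / (t : ℝ))) ^ p * 16 ^ p := by
          rw [← div_pow, ← mul_pow]
          congr 1
          ring
        rw [mul_div_right_comm, this]
        ring
    _ ≤ 2 ^ Fintype.card ι * (1 / 2 ^ (k + 2)) := by
        apply mul_le_mul_of_nonneg_left _ (by positivity)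
        rw [div_le_div_iff₀ (by positivity) (by positivity)]
        linarith

theorem select_B {Λ : Type} [Fintype Λ] (c t k l : ℕ) (ht : 0 < t) (hkl : k < l)
    (hc : Fintype.card Λ * 2 ^ (6 * l + 14) ≤ t) (x : ℝ)
    (hx : x ≤ 2 ^ c * (1 / (t : ℝ) * Fintype.card Λ)) :
    x * 4 ^ (k + l + 5) ≤ 2 ^ c * (1 / 2 ^ (2 * l + 4)) := by
  have htr : (0 : ℝ) < t := by exact_mod_cast ht
  have hcr : (Fintype.card Λ : ℝ) * 2 ^ (6 * l + 14) ≤ (t : ℝ) := by exact_mod_cast hc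
  have h4 : (4 : ℝ) ^ (k + l + 5) ≤ 2 ^ (4 * l + 10) := by
    have : (4 : ℝ) = 2 ^ 2 := by norm_num
    rw [this, ← pow_mul]
    apply pow_le_pow_right₀ (by norm_num)
    omega
  have hle : 1 / (t : ℝ) * Fintype.card Λ ≤ 1 / 2 ^ (6 * l + 14) := by
    rw [one_div_mul_eq_div, div_le_div_iff₀ htr (by positivity)]
    linarith
  calc x * 4 ^ (k + l + 5) ≤ (2 ^ c * (1 / (t : ℝ) * Fintype.card Λ)) * 4 ^ (k + l + 5) :=
        mul_le_mul_of_nonneg_right hx (by positivity)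
    _ ≤ (2 ^ c * (1 / 2 ^ (6 * l + 14))) * 2 ^ (4 * l + 10) := by
        apply mul_le_mul _ h4 (by positivity) (by positivity)
        exact mul_le_mul_of_nonneg_left hle (by positivity)
    _ = 2 ^ c * (1 / 2 ^ (2 * l + 4)) := by
        have : (2 : ℝ) ^ (6 * l + 14) = 2 ^ (4 * l + 10) * 2 ^ (2 * l + 4) := by
          rw [← pow_add]; congr 1; ring
        rw [this]
        field_simp

/-- the cross terms -/
theorem select_main {Λ : ℕ → Type} [∀ k, Fintype (Λ k)] {ι : Type} [Fintype ι]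
    (a : ∀ k, ι → EuclideanSpace ℂ (Λ k)) (s : ι → ℝ) (Z : ∀ k, EuclideanSpace ℂ (Λ k)) (K : ℕ)
    (h1 : ∀ k < K, ‖∑ n, ((s n : ℝ) : ℂ) * (⟪Z k, a k n⟫_ℂ * ⟪a k n, Z k⟫_ℂ)‖
      ≤ 1 / 4 * (‖Z k‖ * ‖Z k‖))
    (h2 : ∀ k l, k < l → l < K → ‖∑ n, ((s n : ℝ) : ℂ) * (⟪Z k, a k n⟫_ℂ * ⟪a l n, Z l⟫_ℂ)‖
      ≤ 1 / 2 ^ (k + l + 5) * (‖Z k‖ * ‖Z l‖)) :
    |∑ n, s n * ‖∑ k ∈ Finset.range K, ⟪a k n, Z k⟫_ℂ‖ ^ 2| ≤
        1 / 2 * ∑ k ∈ Finset.range K, ‖Z k‖ ^ 2 := by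
  -- the complex expansion
  have hexp : ((∑ n, s n * ‖∑ k ∈ Finset.range K, ⟪a k n, Z k⟫_ℂ‖ ^ 2 : ℝ) : ℂ)
      = ∑ k ∈ Finset.range K, ∑ l ∈ Finset.range K,
        ∑ n, ((s n : ℝ) : ℂ) * (⟪Z k, a k n⟫_ℂ * ⟪a l n, Z l⟫_ℂ) := by
    have hn : ∀ n, ((s n * ‖∑ k ∈ Finset.range K, ⟪a k n, Z k⟫_ℂ‖ ^ 2 : ℝ) : ℂ)
        = ∑ k ∈ Finset.range K, ∑ l ∈ Finset.range K,
          ((s n : ℝ) : ℂ) * (⟪Z k, a k n⟫_ℂ * ⟪a l n, Z l⟫_ℂ) := by
      intro n
      have e1 : ((‖∑ k ∈ Finset.range K, ⟪a k n, Z k⟫_ℂ‖ ^ 2 : ℝ) : ℂ)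
          = (starRingEnd ℂ) (∑ k ∈ Finset.range K, ⟪a k n, Z k⟫_ℂ)
            * (∑ l ∈ Finset.range K, ⟪a l n, Z l⟫_ℂ) := by
        rw [Complex.conj_mul']
        push_cast
        rfl
      rw [Complex.ofReal_mul, e1, map_sum, Finset.sum_mul_sum, Finset.mul_sum]
      refine Finset.sum_congr rfl fun k _ => ?_
      rw [Finset.mul_sum]
      refine Finset.sum_congr rfl fun l _ => ?_
      rw [inner_conj_symm]
    rw [Complex.ofReal_sum, Finset.sum_congr rfl (fun n _ => hn n), Finset.sum_comm]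
    refine Finset.sum_congr rfl fun k _ => ?_
    rw [Finset.sum_comm]
  have hb : ∀ k ∈ Finset.range K, ∀ l ∈ Finset.range K,
      ‖∑ n, ((s n : ℝ) : ℂ) * (⟪Z k, a k n⟫_ℂ * ⟪a l n, Z l⟫_ℂ)‖
      ≤ (if k = l then 1 / 4 * (‖Z k‖ * ‖Z l‖) else 0) + 1 / 32 * (((1 / 2) ^ k * ‖Z k‖) *
        ((1 / 2) ^ l * ‖Z l‖)) := by
    intro k hk l hl
    rw [Finset.mem_range] at hk hl
    have hpow : ∀ i j : ℕ, (1 : ℝ) / 2 ^ (i + j + 5) = 1 / 32 * ((1 / 2) ^ i * (1 / 2) ^ j) := by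
      intro i j
      rw [pow_add, pow_add, one_div_pow, one_div_pow]
      field_simp
      norm_num
    rcases lt_trichotomy k l with h | h | h
    · rw [if_neg h.ne, zero_add]
      have := h2 k l h hl
      rw [hpow] at this
      linarith
    · subst h
      rw [if_pos rfl]
      have := h1 k hk
      have h0 : (0 : ℝ) ≤ 1 / 32 * (((1 / 2) ^ k * ‖Z k‖) * ((1 / 2) ^ k * ‖Z k‖)) := by positivity
      linarith
    · rw [if_neg h.ne', zero_add]
      have h3 := h2 l k h hk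
      have h4 : ∑ n, ((s n : ℝ) : ℂ) * (⟪Z k, a k n⟫_ℂ * ⟪a l n, Z l⟫_ℂ)
          = (starRingEnd ℂ) (∑ n, ((s n : ℝ) : ℂ) * (⟪Z l, a l n⟫_ℂ * ⟪a k n, Z k⟫_ℂ)) := by
        rw [map_sum]
        refine Finset.sum_congr rfl fun n _ => ?_
        rw [map_mul, map_mul, inner_conj_symm, inner_conj_symm, Complex.conj_ofReal]
        ring
      rw [h4, RCLike.norm_conj]
      rw [hpow] at h3
      linarith
  have habs : |∑ n, s n * ‖∑ k ∈ Finset.range K, ⟪a k n, Z k⟫_ℂ‖ ^ 2|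
      = ‖((∑ n, s n * ‖∑ k ∈ Finset.range K, ⟪a k n, Z k⟫_ℂ‖ ^ 2 : ℝ) : ℂ)‖ := by
    rw [Complex.norm_real, Real.norm_eq_abs]
  rw [habs, hexp]
  have hle : ‖∑ k ∈ Finset.range K, ∑ l ∈ Finset.range K,
        ∑ n, ((s n : ℝ) : ℂ) * (⟪Z k, a k n⟫_ℂ * ⟪a l n, Z l⟫_ℂ)‖
      ≤ ∑ k ∈ Finset.range K, ∑ l ∈ Finset.range K,
        ((if k = l then 1 / 4 * (‖Z k‖ * ‖Z l‖) else 0) + 1 / 32 * (((1 / 2) ^ k * ‖Z k‖) *
        ((1 / 2) ^ l * ‖Z l‖))) := by
    refine le_trans (norm_sum_le _ _) (Finset.sum_le_sum fun k hk => ?_)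
    refine le_trans (norm_sum_le _ _) (Finset.sum_le_sum fun l hl => ?_)
    exact hb k hk l hl
  refine le_trans hle ?_
  have e2 : ∑ k ∈ Finset.range K, ∑ l ∈ Finset.range K,
        ((if k = l then 1 / 4 * (‖Z k‖ * ‖Z l‖) else 0) + 1 / 32 * (((1 / 2) ^ k * ‖Z k‖) *
        ((1 / 2) ^ l * ‖Z l‖)))
      = 1 / 4 * ∑ k ∈ Finset.range K, ‖Z k‖ ^ 2
        + 1 / 32 * (∑ k ∈ Finset.range K, (1 / 2) ^ k * ‖Z k‖) ^ 2 := by
    simp only [Finset.sum_add_distrib]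
    congr 1
    · rw [Finset.mul_sum]
      refine Finset.sum_congr rfl fun k hk => ?_
      rw [Finset.sum_ite_eq, if_pos hk, pow_two]
    · rw [pow_two, Finset.sum_mul_sum, Finset.mul_sum]
      refine Finset.sum_congr rfl fun k _ => ?_
      rw [Finset.mul_sum]
  rw [e2]
  have hcs := Finset.sum_mul_sq_le_sq_mul_sq (Finset.range K) (fun k => ((1 : ℝ) / 2) ^ k)
    (fun k => ‖Z k‖)
  have hg : ∑ k ∈ Finset.range K, (((1 : ℝ) / 2) ^ k) ^ 2 ≤ 2 := by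
    refine le_trans (Finset.sum_le_sum fun k _ => ?_) (select_geom K)
    have h1' : ((1 : ℝ) / 2) ^ k ≤ 1 := pow_le_one₀ (by norm_num) (by norm_num)
    have h0' : (0 : ℝ) ≤ (1 / 2) ^ k := by positivity
    nlinarith
  have hZ0 : 0 ≤ ∑ k ∈ Finset.range K, ‖Z k‖ ^ 2 := Finset.sum_nonneg fun k _ => by positivity
  have h3 := mul_le_mul_of_nonneg_right hg hZ0
  linarith

theorem select {Λ : ℕ → Type} [∀ k, Fintype (Λ k)] (t : ℕ → ℕ) (ht : ∀ k, 0 < t k)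
    (hp : ∀ k, (64 * 2 ^ (k + 3)) ^ (2 ^ (k + 3)) * Fintype.card (Λ k) * 2 ^ (k + 2) ≤
      t k ^ (2 ^ (k + 3)))
    (hc : ∀ k l, k < l → Fintype.card (Λ k) * 2 ^ (6 * l + 14) ≤ t l)
    {ι : Type} [Fintype ι] (a : ∀ k, ι → EuclideanSpace ℂ (Λ k))
    (ha : ∀ k n, ‖a k n‖ ^ 2 ≤ 1 / t k)
    (hB : ∀ k z, ∑ n, ‖⟪a k n, z⟫_ℂ‖ ^ 2 ≤ ‖z‖ ^ 2) (K : ℕ) :
    ∃ ε : ι → Bool, ∀ Z : ∀ k, EuclideanSpace ℂ (Λ k),
      |∑ n, sg (ε n) * ‖∑ k ∈ Finset.range K, ⟪a k n, Z k⟫_ℂ‖ ^ 2| ≤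
        1 / 2 * ∑ k ∈ Finset.range K, ‖Z k‖ ^ 2 := by
  classical
  have htr : ∀ k, (0 : ℝ) < t k := fun k => by exact_mod_cast ht k
  choose S hS0 hS1 hS2 using fun k l : ℕ => cross (a k) (a l) (1 / (t l : ℝ))
    (by have := htr l; positivity) (ha l) (hB k)
  set N : ℝ := 2 ^ Fintype.card ι with hN
  have hNpos : 0 < N := by positivity
  have hA : ∀ k, ∑ ε : ι → Bool, ‖TT (a k) ε‖ ^ (2 * 2 ^ (k + 3)) * 4 ^ (2 * 2 ^ (k + 3)) ≤
      N * (1 / 2 ^ (k + 2)) := fun k => select_A (t k) k (ht k) (hp k) (a k) (ha k) (hB k)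
  have hBB : ∀ k l, k < l → ∑ ε : ι → Bool, S k l ε * 4 ^ (k + l + 5) ≤
      N * (1 / 2 ^ (2 * l + 4)) := by
    intro k l hkl
    rw [← Finset.sum_mul]
    exact select_B (Λ := Λ k) (Fintype.card ι) (t l) k l (ht l) hkl (hc k l hkl) _ (hS2 k l)
  have hsum : ∑ ε : ι → Bool, (∑ k ∈ Finset.range K,
      ‖TT (a k) ε‖ ^ (2 * 2 ^ (k + 3)) * 4 ^ (2 * 2 ^ (k + 3))
      + ∑ l ∈ Finset.range K, ∑ k ∈ Finset.range l, S k l ε * 4 ^ (k + l + 5))
      ≤ ∑ _ε : ι → Bool, (1 : ℝ) := by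
    rw [Finset.sum_add_distrib, Finset.sum_comm]
    have e1 : ∑ ε : ι → Bool, ∑ l ∈ Finset.range K, ∑ k ∈ Finset.range l,
        S k l ε * 4 ^ (k + l + 5) = ∑ l ∈ Finset.range K, ∑ k ∈ Finset.range l,
        ∑ ε : ι → Bool, S k l ε * 4 ^ (k + l + 5) := by
      rw [Finset.sum_comm]
      refine Finset.sum_congr rfl fun l _ => ?_
      rw [Finset.sum_comm]
    rw [e1]
    have b1 : ∑ k ∈ Finset.range K, ∑ ε : ι → Bool,
        ‖TT (a k) ε‖ ^ (2 * 2 ^ (k + 3)) * 4 ^ (2 * 2 ^ (k + 3))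
        ≤ N * (1 / 4) * 2 := by
      calc _ ≤ ∑ k ∈ Finset.range K, N * (1 / 2 ^ (k + 2)) :=
            Finset.sum_le_sum fun k _ => hA k
        _ = N * (1 / 4) * ∑ k ∈ Finset.range K, (1 / 2 : ℝ) ^ k := by
            rw [Finset.mul_sum]
            refine Finset.sum_congr rfl fun k _ => ?_
            rw [pow_add, one_div_pow]
            field_simp
            norm_num
        _ ≤ N * (1 / 4) * 2 := mul_le_mul_of_nonneg_left (select_geom K) (by positivity)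
    have b2 : ∑ l ∈ Finset.range K, ∑ k ∈ Finset.range l,
        ∑ ε : ι → Bool, S k l ε * 4 ^ (k + l + 5) ≤ N * (1 / 16) * 2 := by
      calc _ ≤ ∑ l ∈ Finset.range K, N * (1 / 16) * (1 / 2 : ℝ) ^ l := by
            refine Finset.sum_le_sum fun l _ => ?_
            calc ∑ k ∈ Finset.range l, ∑ ε : ι → Bool, S k l ε * 4 ^ (k + l + 5)
                ≤ ∑ _k ∈ Finset.range l, N * (1 / 2 ^ (2 * l + 4)) :=
                  Finset.sum_le_sum fun k hk => hBB k l (Finset.mem_range.mp hk)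
              _ = (l : ℝ) * (N * (1 / 2 ^ (2 * l + 4))) := by
                  rw [Finset.sum_const, Finset.card_range, nsmul_eq_mul]
              _ ≤ 2 ^ l * (N * (1 / 2 ^ (2 * l + 4))) := by
                  apply mul_le_mul_of_nonneg_right _ (by positivity)
                  have : l < 2 ^ l := Nat.lt_two_pow_self
                  exact_mod_cast this.le
              _ = N * (1 / 16) * (1 / 2 : ℝ) ^ l := by
                  have : (2 : ℝ) ^ (2 * l + 4) = 2 ^ l * 2 ^ l * 16 := by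
                    rw [pow_add, two_mul, pow_add]; norm_num
                  rw [this, one_div_pow]
                  field_simp
        _ = N * (1 / 16) * ∑ l ∈ Finset.range K, (1 / 2 : ℝ) ^ l := by rw [Finset.mul_sum]
        _ ≤ N * (1 / 16) * 2 := mul_le_mul_of_nonneg_left (select_geom K) (by positivity)
    have hcard : ∑ _ε : ι → Bool, (1 : ℝ) = N := by
      rw [Finset.sum_const, Finset.card_univ, Fintype.card_fun, Fintype.card_bool, nsmul_eq_mul,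
        mul_one, hN]
      push_cast
      rfl
    rw [hcard]
    linarith
  obtain ⟨ε, _, hε⟩ := Finset.exists_le_of_sum_le
    (Finset.univ_nonempty (α := ι → Bool)) hsum
  have hA0 : ∀ k ∈ Finset.range K,
      0 ≤ ‖TT (a k) ε‖ ^ (2 * 2 ^ (k + 3)) * 4 ^ (2 * 2 ^ (k + 3)) := fun k _ => by positivity
  have hB0 : ∀ l ∈ Finset.range K, 0 ≤ ∑ k ∈ Finset.range l, S k l ε * 4 ^ (k + l + 5) :=
    fun l _ => Finset.sum_nonneg fun k _ => mul_nonneg (hS0 k l ε) (by positivity)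
  have hAe : ∀ k < K, ‖TT (a k) ε‖ ^ (2 * 2 ^ (k + 3)) * 4 ^ (2 * 2 ^ (k + 3)) ≤ 1 := by
    intro k hk
    have := Finset.single_le_sum hA0 (Finset.mem_range.mpr hk)
    have h0 := Finset.sum_nonneg hB0
    linarith
  have hBe : ∀ k l, k < l → l < K → S k l ε * 4 ^ (k + l + 5) ≤ 1 := by
    intro k l hkl hl
    have h3 := Finset.single_le_sum hB0 (Finset.mem_range.mpr hl)
    have h4 := Finset.single_le_sum
      (f := fun k => S k l ε * 4 ^ (k + l + 5)) (s := Finset.range l)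
      (fun k _ => mul_nonneg (hS0 k l ε) (by positivity)) (Finset.mem_range.mpr hkl)
    have h0 := Finset.sum_nonneg hA0
    linarith
  refine ⟨ε, fun Z => select_main a (fun n => sg (ε n)) Z K ?_ ?_⟩
  · intro k hk
    have hT : ‖TT (a k) ε‖ ≤ 1 / 4 := by
      have h3 := hAe k hk
      rw [← mul_pow] at h3
      have hne : 2 * 2 ^ (k + 3) ≠ 0 := by positivity
      have h4 := (pow_le_one_iff_of_nonneg (by positivity) hne).mp h3
      linarith
    have hin : ∑ n, ((sg (ε n) : ℝ) : ℂ) * (⟪Z k, a k n⟫_ℂ * ⟪a k n, Z k⟫_ℂ)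
        = ⟪Z k, TT (a k) ε (Z k)⟫_ℂ := by
      unfold TT
      rw [ContinuousLinearMap.sum_apply, inner_sum]
      refine Finset.sum_congr rfl fun n _ => ?_
      rw [ContinuousLinearMap.smul_apply, ContinuousLinearMap.smulRight_apply, innerSL_apply_apply,
        inner_smul_right, inner_smul_right]
      ring
    rw [hin]
    calc ‖⟪Z k, TT (a k) ε (Z k)⟫_ℂ‖ ≤ ‖Z k‖ * ‖TT (a k) ε (Z k)‖ := norm_inner_le_norm _ _
      _ ≤ ‖Z k‖ * (‖TT (a k) ε‖ * ‖Z k‖) :=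
          mul_le_mul_of_nonneg_left ((TT (a k) ε).le_opNorm _) (norm_nonneg _)
      _ ≤ ‖Z k‖ * (1 / 4 * ‖Z k‖) :=
          mul_le_mul_of_nonneg_left (mul_le_mul_of_nonneg_right hT (norm_nonneg _)) (norm_nonneg _)
      _ = 1 / 4 * (‖Z k‖ * ‖Z k‖) := by ring
  · intro k l hkl hl
    have h3 := hS1 k l ε (Z k) (Z l)
    have h4 := hBe k l hkl hl
    have h5 : S k l ε ≤ (1 / 2 ^ (k + l + 5)) ^ 2 := by
      have e4 : (4 : ℝ) ^ (k + l + 5) = (2 ^ (k + l + 5)) ^ 2 := by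
        rw [← pow_mul, mul_comm (k + l + 5) 2, pow_mul]; norm_num
      rw [e4] at h4
      rw [div_pow, one_pow, le_div_iff₀ (by positivity)]
      exact h4
    have h6 : ‖∑ n, ((sg (ε n) : ℝ) : ℂ) * (⟪Z k, a k n⟫_ℂ * ⟪a l n, Z l⟫_ℂ)‖ ^ 2
        ≤ (1 / 2 ^ (k + l + 5) * (‖Z k‖ * ‖Z l‖)) ^ 2 := by
      calc _ ≤ S k l ε * (‖Z k‖ ^ 2 * ‖Z l‖ ^ 2) := h3
        _ ≤ (1 / 2 ^ (k + l + 5)) ^ 2 * (‖Z k‖ ^ 2 * ‖Z l‖ ^ 2) :=
            mul_le_mul_of_nonneg_right h5 (by positivity)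
        _ = (1 / 2 ^ (k + l + 5) * (‖Z k‖ * ‖Z l‖)) ^ 2 := by ring
    exact le_of_sq_le_sq h6 (by positivity)

theorem limit_signs_diff (e : ℕ → H) (he : Bess e) (s : Finset ℕ) (u v : H) :
    ∑ n ∈ s, |‖⟪e n, u⟫_ℂ‖ ^ 2 - ‖⟪e n, v⟫_ℂ‖ ^ 2| ≤ ‖u - v‖ * (‖u‖ + ‖v‖) := by
  have h1 : ∀ n ∈ s, |‖⟪e n, u⟫_ℂ‖ ^ 2 - ‖⟪e n, v⟫_ℂ‖ ^ 2| ≤
      ‖⟪e n, u - v⟫_ℂ‖ * ‖⟪e n, u⟫_ℂ‖ + ‖⟪e n, u - v⟫_ℂ‖ * ‖⟪e n, v⟫_ℂ‖ := by
    intro n _
    have e1 : ‖⟪e n, u⟫_ℂ‖ ^ 2 - ‖⟪e n, v⟫_ℂ‖ ^ 2 =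
        (‖⟪e n, u⟫_ℂ‖ - ‖⟪e n, v⟫_ℂ‖) * (‖⟪e n, u⟫_ℂ‖ + ‖⟪e n, v⟫_ℂ‖) := by ring
    have e2 : |‖⟪e n, u⟫_ℂ‖ - ‖⟪e n, v⟫_ℂ‖| ≤ ‖⟪e n, u - v⟫_ℂ‖ := by
      rw [inner_sub_right]
      exact abs_norm_sub_norm_le _ _
    have e3 : 0 ≤ ‖⟪e n, u⟫_ℂ‖ + ‖⟪e n, v⟫_ℂ‖ := by positivity
    rw [e1, abs_mul, abs_of_nonneg e3, ← mul_add]
    exact mul_le_mul_of_nonneg_right e2 e3
  have h2 : ∀ x y : H, ∑ n ∈ s, ‖⟪e n, x⟫_ℂ‖ * ‖⟪e n, y⟫_ℂ‖ ≤ ‖x‖ * ‖y‖ := by
    intro x y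
    refine (Real.sum_mul_le_sqrt_mul_sqrt s _ _).trans ?_
    apply mul_le_mul
    · exact Real.sqrt_le_iff.2 ⟨norm_nonneg _, he s x⟩
    · exact Real.sqrt_le_iff.2 ⟨norm_nonneg _, he s y⟩
    · exact Real.sqrt_nonneg _
    · exact norm_nonneg _
  refine (Finset.sum_le_sum h1).trans ?_
  rw [Finset.sum_add_distrib, mul_add]
  exact add_le_add (h2 _ _) (h2 _ _)

/-- the projection to the first `N` blocks -/
noncomputable def limit_signs_pr {Λ : ℕ → Type} [∀ k, Fintype (Λ k)]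
    (β : HilbertBasis (Σ k, Λ k) ℂ H) (N : ℕ) (z : H) : H :=
  ∑ k ∈ Finset.range N, ∑ f : Λ k, ⟪β ⟨k, f⟩, z⟫_ℂ • β ⟨k, f⟩

theorem limit_signs_pr_tendsto {Λ : ℕ → Type} [∀ k, Fintype (Λ k)]
    (β : HilbertBasis (Σ k, Λ k) ℂ H) (z : H) :
    Tendsto (fun N => limit_signs_pr β N z) atTop (𝓝 z) := by
  have h1 := β.hasSum_repr z
  have h2 : HasSum (fun k => ∑ f : Λ k, ⟪β ⟨k, f⟩, z⟫_ℂ • β ⟨k, f⟩) z := by
    apply HasSum.sigma h1
    intro k
    have h3 := hasSum_fintype (fun f : Λ k => ⟪β ⟨k, f⟩, z⟫_ℂ • β ⟨k, f⟩)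
    convert h3 using 2
    rw [HilbertBasis.repr_apply_apply]
  exact h2.tendsto_sum_nat

theorem limit_signs_arr_inner {Λ : ℕ → Type} [∀ k, Fintype (Λ k)]
    (β : HilbertBasis (Σ k, Λ k) ℂ H) (N : ℕ) (x z : H) :
    ∑ k ∈ Finset.range N, ⟪arr β k x, arr β k z⟫_ℂ = ⟪x, limit_signs_pr β N z⟫_ℂ := by
  unfold limit_signs_pr
  rw [inner_sum]
  apply Finset.sum_congr rfl
  intro k _
  rw [inner_sum, PiLp.inner_apply]
  apply Finset.sum_congr rfl
  intro f _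
  rw [inner_smul_right, ← inner_conj_symm x (β ⟨k, f⟩)]
  unfold arr
  simp [mul_comm]

theorem limit_signs_arr_norm {Λ : ℕ → Type} [∀ k, Fintype (Λ k)]
    (β : HilbertBasis (Σ k, Λ k) ℂ H) (N : ℕ) (z : H) :
    ∑ k ∈ Finset.range N, ‖arr β k z‖ ^ 2 ≤ ‖z‖ ^ 2 := by
  classical
  have h := β.orthonormal.sum_inner_products_le (x := z)
    (s := (Finset.range N).sigma (fun k => (Finset.univ : Finset (Λ k))))
  rw [Finset.sum_sigma] at h
  refine le_trans (le_of_eq ?_) h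
  apply Finset.sum_congr rfl
  intro k _
  rw [EuclideanSpace.norm_sq_eq]
  rfl

theorem limit_signs {Λ : ℕ → Type} [∀ k, Fintype (Λ k)] (β : HilbertBasis (Σ k, Λ k) ℂ H)
    (R : ∀ k, Submodule ℂ (EuclideanSpace ℂ (Λ k))) (e : ℕ → H) (he : Bess e)
    (a : ∀ k, ℕ → EuclideanSpace ℂ (Λ k))
    (haR : ∀ k n, ∀ X ∈ R k, ⟪a k n, X⟫_ℂ = ⟪arr β k (e n), X⟫_ℂ)
    (hsel : ∀ N K : ℕ, ∃ ε : Fin N → Bool, ∀ Z : ∀ k, EuclideanSpace ℂ (Λ k),
      |∑ n, sg (ε n) * ‖∑ k ∈ Finset.range K, ⟪a k n, Z k⟫_ℂ‖ ^ 2| ≤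
        1 / 2 * ∑ k ∈ Finset.range K, ‖Z k‖ ^ 2) :
    ∃ ε : ℕ → Bool, ∀ z : H, (∀ k, arr β k z ∈ R k) →
      |∑' n, sg (ε n) * ‖⟪e n, z⟫_ℂ‖ ^ 2| ≤ 1 / 2 * ‖z‖ ^ 2 := by
  classical
  choose εN hεN using fun N => hsel N N
  have hl : ((Filter.hyperfilter ℕ : Ultrafilter ℕ) : Filter ℕ) ≤ atTop := by
    rw [← Nat.cofinite_eq_atTop]
    exact Filter.hyperfilter_le_cofinite
  generalize (Filter.hyperfilter ℕ : Ultrafilter ℕ) = l at hl
  obtain ⟨E, hE⟩ : ∃ E : ℕ → ℕ → Bool, ∀ N (n : Fin N), E N n = εN N n :=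
    ⟨fun N n => if h : n < N then εN N ⟨n, h⟩ else false, fun N n => by simp⟩
  refine ⟨fun n => decide (∀ᶠ N in (l : Filter ℕ), E N n = true), ?_⟩
  intro z hz
  have hEε : ∀ n, ∀ᶠ N in (l : Filter ℕ),
      E N n = decide (∀ᶠ N in (l : Filter ℕ), E N n = true) := by
    intro n
    by_cases h : ∀ᶠ N in (l : Filter ℕ), E N n = true
    · filter_upwards [h] with N hN
      rw [hN]
      simp [h]
    · have h' := Ultrafilter.eventually_not.2 h
      filter_upwards [h'] with N hN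
      have : E N n = false := by simpa using hN
      rw [this]
      simp [h]
  have hsg : ∀ b, |sg b| = 1 := by
    intro b
    unfold sg
    split_ifs <;> simp
  have hc : Summable (fun n => ‖⟪e n, z⟫_ℂ‖ ^ 2) :=
    summable_of_sum_le (fun n => by positivity) (fun s => he s z)
  -- the limit
  have hlim : Tendsto (fun N => ∑' n, (if n < N then sg (E N n) * ‖⟪e n, z⟫_ℂ‖ ^ 2 else 0)) l
      (𝓝 (∑' n, sg (decide (∀ᶠ N in (l : Filter ℕ), E N n = true)) * ‖⟪e n, z⟫_ℂ‖ ^ 2)) := by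
    apply tendsto_tsum_of_dominated_convergence hc
    · intro n
      have h1 : ∀ᶠ N in (l : Filter ℕ), n < N := hl (eventually_gt_atTop n)
      apply tendsto_const_nhds.congr'
      filter_upwards [h1, hEε n] with N h2 h3
      rw [if_pos h2, h3]
    · refine Filter.Eventually.of_forall (fun N n => ?_)
      split_ifs
      · rw [Real.norm_eq_abs, abs_mul, hsg, one_mul, abs_of_nonneg (by positivity)]
      · rw [norm_zero]
        positivity
  have hδ : Tendsto (fun N => 1 / 2 * ‖z‖ ^ 2 + ‖limit_signs_pr β N z - z‖ *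
      (‖limit_signs_pr β N z‖ + ‖z‖)) l (𝓝 (1 / 2 * ‖z‖ ^ 2 + ‖z - z‖ * (‖z‖ + ‖z‖))) := by
    have h1 := (limit_signs_pr_tendsto β z).mono_left hl
    exact tendsto_const_nhds.add ((h1.sub tendsto_const_nhds).norm.mul
      (h1.norm.add tendsto_const_nhds))
  rw [sub_self, norm_zero, zero_mul, add_zero] at hδ
  apply le_of_tendsto_of_tendsto hlim.abs hδ
  refine Filter.Eventually.of_forall (fun N => ?_)
  beta_reduce
  have e1 : ∑' n, (if n < N then sg (E N n) * ‖⟪e n, z⟫_ℂ‖ ^ 2 else 0) =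
      ∑ n : Fin N, sg (εN N n) * ‖⟪e n, z⟫_ℂ‖ ^ 2 := by
    rw [tsum_eq_sum (s := Finset.range N), Finset.sum_range]
    · apply Finset.sum_congr rfl
      intro n _
      rw [if_pos n.2, hE]
    · intro n hn
      rw [if_neg (by simpa using hn)]
  rw [e1]
  have h2 := hεN N (fun k => arr β k z)
  have e2 : ∀ n : Fin N, ∑ k ∈ Finset.range N, ⟪a k n, arr β k z⟫_ℂ =
      ⟪e n, limit_signs_pr β N z⟫_ℂ := by
    intro n
    rw [← limit_signs_arr_inner]
    apply Finset.sum_congr rfl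
    intro k _
    exact haR k n _ (hz k)
  simp only [e2] at h2
  have h3 := h2.trans (mul_le_mul_of_nonneg_left (limit_signs_arr_norm β N z)
    (by norm_num : (0 : ℝ) ≤ 1 / 2))
  have h4 : |∑ n : Fin N, sg (εN N n) * ‖⟪e n, z⟫_ℂ‖ ^ 2 -
      ∑ n : Fin N, sg (εN N n) * ‖⟪e n, limit_signs_pr β N z⟫_ℂ‖ ^ 2| ≤
      ‖limit_signs_pr β N z - z‖ * (‖limit_signs_pr β N z‖ + ‖z‖) := by
    rw [← Finset.sum_sub_distrib]
    refine (Finset.abs_sum_le_sum_abs _ _).trans ?_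
    have h5 := limit_signs_diff e he (Finset.range N) (limit_signs_pr β N z) z
    rw [Finset.sum_range] at h5
    refine le_trans (le_of_eq ?_) h5
    apply Finset.sum_congr rfl
    intro n _
    rw [← mul_sub, abs_mul, hsg, one_mul, abs_sub_comm]
  have h6 := abs_sub_abs_le_abs_sub (∑ n : Fin N, sg (εN N n) * ‖⟪e n, z⟫_ℂ‖ ^ 2)
    (∑ n : Fin N, sg (εN N n) * ‖⟪e n, limit_signs_pr β N z⟫_ℂ‖ ^ 2)
  linarith

theorem zz_orthonormal (e : ℕ → H) (he : OrthZ e) (p : ℕ → Prop) (hp : ∀ n, p n → e n ≠ 0) :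
    Orthonormal ℂ (fun n : {n // p n} => e n) := by
  refine ⟨fun n => ?_, fun n m hnm => ?_⟩
  · rcases he.1 n with h | h
    · exact h
    · exact absurd h (hp n n.2)
  · exact he.2 n m (fun h => hnm (Subtype.ext h))

omit [CompleteSpace H] in
theorem zz_ortho_span (e : ℕ → H) (S : Set ℕ) (x : H) (h : ∀ n ∈ S, ⟪e n, x⟫_ℂ = 0) :
    x ∈ (spanS e S)ᗮ := by
  unfold spanS
  rw [Submodule.orthogonal_closure, Submodule.mem_orthogonal]
  intro u hu
  induction hu using Submodule.span_induction with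
  | mem y hy =>
    obtain ⟨n, hn, rfl⟩ := hy
    exact h n hn
  | zero => exact inner_zero_left _
  | add y z _ _ hy hz => rw [inner_add_left, hy, hz, add_zero]
  | smul c y _ hy => rw [inner_smul_left, hy, mul_zero]

theorem inner_spanS (e : ℕ → H) (he : OrthZ e) (S : Set ℕ) (z : H) :
    HasSum (fun n => S.indicator (fun n => ‖⟪e n, z⟫_ℂ‖ ^ 2) n) (⟪z, (spanS e S).starProjection z⟫_ℂ).re := by
  classical
  have hmem : ∀ n ∈ S, e n ∈ spanS e S := fun n hn =>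
    Submodule.le_topologicalClosure _ (Submodule.subset_span ⟨n, hn, rfl⟩)
  let v : {n // n ∈ S ∧ e n ≠ 0} → spanS e S := fun n => ⟨e n, hmem n n.2.1⟩
  have hv : Orthonormal ℂ v := by
    have h1 := zz_orthonormal e he (fun n => n ∈ S ∧ e n ≠ 0) (fun n hn => hn.2)
    refine ⟨fun n => h1.1 n, fun n m hnm => h1.2 hnm⟩
  have hsp : (Submodule.span ℂ (Set.range v))ᗮ = ⊥ := by
    rw [Submodule.eq_bot_iff]
    intro x hx
    rw [Submodule.mem_orthogonal] at hx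
    have h2 : ∀ n ∈ S, ⟪e n, (x : H)⟫_ℂ = 0 := by
      intro n hn
      by_cases hn0 : e n = 0
      · rw [hn0, inner_zero_left]
      · exact hx (v ⟨n, hn, hn0⟩) (Submodule.subset_span ⟨_, rfl⟩)
    have h3 := zz_ortho_span e S x h2
    have h4 := (Submodule.mem_orthogonal _ _).1 h3 x x.2
    exact Subtype.ext (inner_self_eq_zero.1 h4)
  let b := HilbertBasis.mkOfOrthogonalEqBot hv hsp
  have hb : ∀ i, ((b i : spanS e S) : H) = e i := by
    intro i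
    have : b i = v i := by
      rw [HilbertBasis.coe_mkOfOrthogonalEqBot]
    rw [this]
  have h5 := b.hasSum_orthogonalProjectionOnto z
  let φ : spanS e S →L[ℂ] ℂ := (innerSL ℂ z).comp (spanS e S).subtypeL
  have h6 := (h5.mapL φ).mapL Complex.reCLM
  have h7 : ∀ i, Complex.reCLM (φ (⟪((b i : spanS e S) : H), z⟫_ℂ • b i)) =
      ‖⟪e i, z⟫_ℂ‖ ^ 2 := by
    intro i
    change (⟪z, ⟪((b i : spanS e S) : H), z⟫_ℂ • ((b i : spanS e S) : H)⟫_ℂ).re = _
    rw [hb, inner_smul_right, ← inner_conj_symm z (e i), Complex.mul_conj, Complex.ofReal_re,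
      Complex.normSq_eq_norm_sq]
  have h8 : Complex.reCLM (φ ((spanS e S).orthogonalProjectionOnto z)) =
      (⟪z, (spanS e S).starProjection z⟫_ℂ).re := rfl
  rw [h8] at h6
  simp only [h7] at h6
  have h9 : Set.indicator {n | n ∈ S ∧ e n ≠ 0} (fun n => ‖⟪e n, z⟫_ℂ‖ ^ 2) =
      fun n => S.indicator (fun n => ‖⟪e n, z⟫_ℂ‖ ^ 2) n := by
    funext n
    by_cases hn : n ∈ S
    · by_cases hn0 : e n = 0
      · rw [Set.indicator_of_notMem (fun h => h.2 hn0), Set.indicator_of_mem hn, hn0]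
        simp
      · have hm : n ∈ ({n | n ∈ S ∧ e n ≠ 0} : Set ℕ) := ⟨hn, hn0⟩
        rw [Set.indicator_of_mem hm, Set.indicator_of_mem hn]
    · rw [Set.indicator_of_notMem (fun h => hn h.1), Set.indicator_of_notMem hn]
  rw [← h9]
  exact hasSum_subtype_iff_indicator.1 h6

theorem bess_of_orthZ (e : ℕ → H) (he : OrthZ e) : Bess e := by
  classical
  intro s z
  have h1 := zz_orthonormal e he (fun n => e n ≠ 0) (fun n hn => hn)
  have h2 := h1.sum_inner_products_le (s := s.subtype (fun n => e n ≠ 0)) z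
  rw [Finset.sum_subtype_eq_sum_filter (f := fun n => ‖⟪e n, z⟫_ℂ‖ ^ 2)] at h2
  rw [Finset.sum_filter_of_ne] at h2
  · exact h2
  · intro n _ hn h0
    apply hn
    rw [h0]
    simp

theorem j24705_pos (φ : (H →L[ℂ] H) →L[ℂ] ℂ) (hφ : IsState φ) (A : H →L[ℂ] H)
    (hA : IsSelfAdjoint A) (hp : ∀ z, 0 ≤ (⟪z, A z⟫_ℂ).re) : 0 ≤ (φ A).re := by
  have h1 : A.IsPositive := by
    refine ⟨hA.isSymmetric, fun z => ?_⟩
    rw [ContinuousLinearMap.reApplyInnerSelf_apply]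
    have h2 := hp z
    rw [← inner_conj_symm, Complex.conj_re] at h2
    exact h2
  have h3 : 0 ≤ A := (ContinuousLinearMap.nonneg_iff_isPositive A).2 h1
  obtain ⟨T, hT⟩ := CStarAlgebra.nonneg_iff_eq_star_mul_self.1 h3
  have h4 := hφ.1 T
  rw [← hT] at h4
  exact (Complex.nonneg_iff.1 h4).1

theorem j24705_est (L : Submodule ℂ H) [CompleteSpace L] (J : H →L[ℂ] H)
    (hJ1 : ‖J‖ ≤ 2) (hJL : ∀ z ∈ L, |(⟪z, J z⟫_ℂ).re| ≤ 1 / 2 * ‖z‖ ^ 2) (z : H) :
    |(⟪z, J z⟫_ℂ).re| ≤ 3 / 4 * ‖z‖ ^ 2 + 18 * (⟪z, z - L.starProjection z⟫_ℂ).re := by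
  obtain ⟨z1, hz1⟩ : ∃ z1, z1 = L.starProjection z := ⟨_, rfl⟩
  obtain ⟨z2, hz2⟩ : ∃ z2, z2 = z - z1 := ⟨_, rfl⟩
  have hm1 : z1 ∈ L := by
    rw [hz1]
    exact L.starProjection_apply_mem z
  have hm2 : z2 ∈ Lᗮ := by
    rw [hz2, hz1]
    exact L.sub_starProjection_mem_orthogonal z
  have horth : ⟪z1, z2⟫_ℂ = 0 := (Submodule.mem_orthogonal L z2).1 hm2 z1 hm1
  have hz : z = z1 + z2 := by
    rw [hz2]
    abel
  have hn : ‖z‖ ^ 2 = ‖z1‖ ^ 2 + ‖z2‖ ^ 2 := by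
    have h1 := norm_add_sq_eq_norm_sq_add_norm_sq_of_inner_eq_zero z1 z2 horth
    rw [hz, sq, sq, sq]
    exact h1
  have hre : (⟪z, z - L.starProjection z⟫_ℂ).re = ‖z2‖ ^ 2 := by
    rw [← hz1, ← hz2]
    conv_lhs => rw [hz]
    rw [inner_add_left, horth, zero_add, inner_self_eq_norm_sq_to_K]
    norm_cast
  have hJn : ∀ u v : H, |(⟪u, J v⟫_ℂ).re| ≤ 2 * (‖u‖ * ‖v‖) := by
    intro u v
    have h1 : |(⟪u, J v⟫_ℂ).re| ≤ ‖⟪u, J v⟫_ℂ‖ := Complex.abs_re_le_norm _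
    have h2 : ‖⟪u, J v⟫_ℂ‖ ≤ ‖u‖ * ‖J v‖ := norm_inner_le_norm _ _
    have h3 : ‖J v‖ ≤ 2 * ‖v‖ := (J.le_opNorm v).trans
      (mul_le_mul_of_nonneg_right hJ1 (norm_nonneg _))
    have h4 : ‖u‖ * ‖J v‖ ≤ ‖u‖ * (2 * ‖v‖) := mul_le_mul_of_nonneg_left h3 (norm_nonneg _)
    linarith
  have hexp : (⟪z, J z⟫_ℂ).re = (⟪z1, J z1⟫_ℂ).re + (⟪z1, J z2⟫_ℂ).re + (⟪z2, J z1⟫_ℂ).re +
      (⟪z2, J z2⟫_ℂ).re := by
    conv_lhs => rw [hz]
    rw [map_add, inner_add_left, inner_add_right, inner_add_right]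
    simp only [Complex.add_re]
    ring
  rw [hre, hn, hexp]
  have b1 := abs_le.1 (hJL z1 hm1)
  have b2 := abs_le.1 (hJn z1 z2)
  have b3 := abs_le.1 (hJn z2 z1)
  have b4 := abs_le.1 (hJn z2 z2)
  have b5 : 4 * (‖z1‖ * ‖z2‖) ≤ 1 / 4 * ‖z1‖ ^ 2 + 16 * ‖z2‖ ^ 2 := by
    nlinarith [sq_nonneg (‖z1‖ / 2 - 4 * ‖z2‖)]
  have b6 : ‖z2‖ * ‖z1‖ = ‖z1‖ * ‖z2‖ := mul_comm _ _
  have b7 : ‖z2‖ * ‖z2‖ = ‖z2‖ ^ 2 := (sq _).symm
  rw [b6] at b3
  rw [b7] at b4
  have b8 : 0 ≤ ‖z2‖ ^ 2 := sq_nonneg _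
  rw [abs_le]
  constructor
  · linarith [b1.1, b2.1, b3.1, b4.1]
  · linarith [b1.2, b2.2, b3.2, b4.2]

theorem j24705_half (φ : (H →L[ℂ] H) →L[ℂ] ℂ) (hφ : IsState φ) (L : Submodule ℂ H)
    [CompleteSpace L] (hL : φ L.starProjection = 1) (J : H →L[ℂ] H) (hJ : IsSelfAdjoint J)
    (hJ1 : ‖J‖ ≤ 2) (hJL : ∀ z ∈ L, |(⟪z, J z⟫_ℂ).re| ≤ 1 / 2 * ‖z‖ ^ 2) :
    (φ J).re ≤ 3 / 4 := by
  have hQ : IsSelfAdjoint L.starProjection := by
    rw [ContinuousLinearMap.isSelfAdjoint_iff_isSymmetric]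
    exact L.starProjection_isSymmetric
  have h1 : IsSelfAdjoint (1 : H →L[ℂ] H) := IsSelfAdjoint.one _
  have hA : IsSelfAdjoint (((3 / 4 : ℝ) • (1 : H →L[ℂ] H) +
      (18 : ℝ) • (1 - L.starProjection)) - J) := by
    refine IsSelfAdjoint.sub (IsSelfAdjoint.add ?_ ?_) hJ
    · exact IsSelfAdjoint.smul (IsSelfAdjoint.all _) h1
    · exact IsSelfAdjoint.smul (IsSelfAdjoint.all _) (h1.sub hQ)
  have hp : ∀ z, 0 ≤ (⟪z, (((3 / 4 : ℝ) • (1 : H →L[ℂ] H) +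
      (18 : ℝ) • (1 - L.starProjection)) - J) z⟫_ℂ).re := by
    intro z
    have h2 := (abs_le.1 (j24705_est L J hJ1 hJL z)).2
    have h3 : (((3 / 4 : ℝ) • (1 : H →L[ℂ] H) + (18 : ℝ) • (1 - L.starProjection)) - J) z =
        ((3 / 4 : ℝ) : ℂ) • z + ((18 : ℝ) : ℂ) • (z - L.starProjection z) - J z := by
      simp only [sub_apply, add_apply, smul_apply, ContinuousLinearMap.one_apply,
        Complex.coe_smul]
    rw [h3, inner_sub_right, inner_add_right, inner_smul_right, inner_smul_right,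
      inner_self_eq_norm_sq_to_K, Complex.sub_re, Complex.add_re, Complex.re_ofReal_mul,
      Complex.re_ofReal_mul]
    have h4 : (((‖z‖ : ℝ) : ℂ) ^ 2).re = ‖z‖ ^ 2 := by
      rw [← Complex.ofReal_pow, Complex.ofReal_re]
    have h5 : ((RCLike.ofReal ‖z‖ : ℂ) ^ 2).re = ‖z‖ ^ 2 := h4
    rw [h5]
    linarith
  have h6 := j24705_pos φ hφ _ hA hp
  have h7 : φ (((3 / 4 : ℝ) • (1 : H →L[ℂ] H) + (18 : ℝ) • (1 - L.starProjection)) - J) =
      ((3 / 4 : ℝ) : ℂ) * φ 1 + ((18 : ℝ) : ℂ) * (φ 1 - 1) - φ J := by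
    rw [map_sub, map_add, ← hL]
    have e1 : ∀ (c : ℝ) (T : H →L[ℂ] H), φ (c • T) = (c : ℂ) * φ T := by
      intro c T
      have e2 : c • T = (c : ℂ) • T := (Complex.coe_smul c T).symm
      rw [e2, map_smul, smul_eq_mul]
    rw [e1, e1, map_sub]
  rw [h7, Complex.sub_re, Complex.add_re, Complex.re_ofReal_mul, Complex.re_ofReal_mul,
    Complex.sub_re, Complex.one_re] at h6
  have h8 : (φ 1).re ≤ 1 := by
    have h9 : (φ 1).re ≤ ‖φ 1‖ := Complex.re_le_norm _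
    have h10 : ‖φ 1‖ ≤ ‖φ‖ * ‖(1 : H →L[ℂ] H)‖ := φ.le_opNorm 1
    rw [hφ.2, one_mul] at h10
    have h11 : ‖(1 : H →L[ℂ] H)‖ ≤ 1 := ContinuousLinearMap.norm_id_le
    linarith
  linarith

theorem state_bound (φ : (H →L[ℂ] H) →L[ℂ] ℂ) (hφ : IsState φ) (L : Submodule ℂ H) [CompleteSpace L]
    (hL : φ L.starProjection = 1) (J : H →L[ℂ] H) (hJ : IsSelfAdjoint J) (hJ1 : ‖J‖ ≤ 2)
    (hJL : ∀ z ∈ L, |(⟪z, J z⟫_ℂ).re| ≤ 1 / 2 * ‖z‖ ^ 2) :
    |(φ J).re| ≤ 3 / 4 := by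
  rw [abs_le]
  constructor
  · have h1 := j24705_half φ hφ L hL (-J) hJ.neg (by rwa [norm_neg]) (by
      intro z hz
      have h2 := hJL z hz
      have h3 : (⟪z, (-J) z⟫_ℂ).re = -(⟪z, J z⟫_ℂ).re := by
        rw [neg_apply, inner_neg_right, Complex.neg_re]
      rw [h3, abs_neg]
      exact h2)
    rw [map_neg, Complex.neg_re] at h1
    linarith
  · exact j24705_half φ hφ L hL J hJ hJ1 hJL

theorem mem_masa_of_commute (A : StarSubalgebra ℂ (H →L[ℂ] H)) (hA : IsMasa A)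
    (x : H →L[ℂ] H) (hx : IsSelfAdjoint x) (hc : ∀ a ∈ A, a * x = x * a) : x ∈ A := by
  classical
  have hstar : star x = x := hx
  have hcomm : ∀ a ∈ insert x (A : Set (H →L[ℂ] H)), ∀ b ∈ insert x (A : Set (H →L[ℂ] H)),
      a * b = b * a := by
    rintro a (rfl | ha) b (rfl | hb)
    · rfl
    · exact (hc b hb).symm
    · exact hc a ha
    · exact hA.1 a ha b hb
  have hcomm' : ∀ a ∈ insert x (A : Set (H →L[ℂ] H)), ∀ b ∈ insert x (A : Set (H →L[ℂ] H)),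
      a * star b = star b * a := by
    rintro a ha b hb
    refine hcomm a ha (star b) ?_
    rcases hb with rfl | hb
    · rw [hstar]; exact Set.mem_insert _ _
    · exact Set.mem_insert_of_mem _ (star_mem (S := StarSubalgebra ℂ (H →L[ℂ] H)) (s := A) hb)
  have hM := StarAlgebra.isMulCommutative_adjoin ℂ hcomm hcomm'
  have hB := hA.2 (StarAlgebra.adjoin ℂ (insert x (A : Set (H →L[ℂ] H)))) (by
    intro a ha b hb
    have := hM.is_comm.comm ⟨a, ha⟩ ⟨b, hb⟩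
    exact congrArg Subtype.val this) (by
    intro a ha
    exact StarAlgebra.subset_adjoin ℂ _ (Set.mem_insert_of_mem _ ha))
  rw [hB]
  exact StarAlgebra.subset_adjoin ℂ _ (Set.mem_insert _ _)

theorem masa_part_ortho (e : ℕ → H) (he : OrthZ e) (S T : Set ℕ) (hST : Disjoint S T) :
    spanS e S ≤ (spanS e T)ᗮ := by
  unfold spanS
  rw [Submodule.orthogonal_closure]
  refine Submodule.topologicalClosure_minimal _ ?_ (Submodule.isClosed_orthogonal _)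
  rw [← Submodule.isOrtho_iff_le, Submodule.isOrtho_span]
  rintro _ ⟨n, hn, rfl⟩ _ ⟨m, hm, rfl⟩
  apply he.2
  rintro rfl
  exact Set.disjoint_left.1 hST hn hm

theorem masa_part_mem (e : ℕ → H) (S : Set ℕ) (n : ℕ) (hn : n ∈ S) : e n ∈ spanS e S :=
  Submodule.le_topologicalClosure _ (Submodule.subset_span ⟨n, hn, rfl⟩)

theorem masa_part_mono (e : ℕ → H) (S T : Set ℕ) (h : S ⊆ T) : spanS e S ≤ spanS e T :=
  Submodule.topologicalClosure_mono (Submodule.span_mono (Set.image_mono h))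

theorem masa_part_mul (e : ℕ → H) (he : OrthZ e) (S : Set ℕ) :
    (spanS e S).starProjection * (spanS e Sᶜ).starProjection = 0 := by
  ext x
  show (spanS e S).starProjection ((spanS e Sᶜ).starProjection x) = 0
  rw [Submodule.starProjection_apply_eq_zero_iff]
  have h1 := masa_part_ortho e he Sᶜ S disjoint_compl_left
  exact h1 (Submodule.starProjection_apply_mem _ x)

theorem masa_part_add (e : ℕ → H) (he : OrthZ e) (S : Set ℕ) :
    (spanS e S).starProjection + (spanS e Sᶜ).starProjection =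
      (spanS e Set.univ).starProjection := by
  ext x
  symm
  apply Submodule.eq_starProjection_of_mem_of_inner_eq_zero
  · exact add_mem (masa_part_mono e S _ (Set.subset_univ _) (Submodule.starProjection_apply_mem _ x))
      (masa_part_mono e Sᶜ _ (Set.subset_univ _) (Submodule.starProjection_apply_mem _ x))
  · show ∀ w ∈ spanS e Set.univ, ⟪x - ((spanS e S).starProjection x + (spanS e Sᶜ).starProjection x), w⟫_ℂ = 0
    intro w hw
    have h1 : spanS e Set.univ ≤ (Submodule.span ℂ {x - ((spanS e S).starProjection x +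
        (spanS e Sᶜ).starProjection x)})ᗮ := by
      refine Submodule.topologicalClosure_minimal _ ?_ (Submodule.isClosed_orthogonal _)
      rw [Submodule.span_le]
      rintro _ ⟨n, -, rfl⟩
      rw [SetLike.mem_coe, Submodule.mem_orthogonal_singleton_iff_inner_right]
      by_cases hn : n ∈ S
      · have h2 : ⟪x - (spanS e S).starProjection x, e n⟫_ℂ = 0 :=
          Submodule.starProjection_inner_eq_zero _ _ (masa_part_mem e S n hn)
        have h3 : ⟪(spanS e Sᶜ).starProjection x, e n⟫_ℂ = 0 := by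
          have h4 := masa_part_ortho e he Sᶜ S disjoint_compl_left (Submodule.starProjection_apply_mem _ x)
          exact (Submodule.mem_orthogonal' _ _).1 h4 _ (masa_part_mem e S n hn)
        rw [← sub_sub, inner_sub_left, h2, h3, sub_zero]
      · have h2 : ⟪x - (spanS e Sᶜ).starProjection x, e n⟫_ℂ = 0 :=
          Submodule.starProjection_inner_eq_zero _ _ (masa_part_mem e Sᶜ n hn)
        have h3 : ⟪(spanS e S).starProjection x, e n⟫_ℂ = 0 := by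
          have h4 := masa_part_ortho e he S Sᶜ disjoint_compl_right (Submodule.starProjection_apply_mem _ x)
          exact (Submodule.mem_orthogonal' _ _).1 h4 _ (masa_part_mem e Sᶜ n hn)
        rw [add_comm, ← sub_sub, inner_sub_left, h2, h3, sub_zero]
    have h2 := h1 hw
    rwa [Submodule.mem_orthogonal_singleton_iff_inner_right] at h2

theorem masa_part_inv (e : ℕ → H) (a : H →L[ℂ] H) (ha : ∀ n, ∃ c : ℂ, a (e n) = c • e n)
    (S : Set ℕ) (v : H) (hv : v ∈ spanS e S) : a v ∈ spanS e S := by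
  have h1 : spanS e S ≤ (spanS e S).comap (a : H →ₗ[ℂ] H) := by
    refine Submodule.topologicalClosure_minimal _ ?_ ?_
    · rw [Submodule.span_le]
      rintro _ ⟨n, hn, rfl⟩
      obtain ⟨c, hc⟩ := ha n
      show a (e n) ∈ spanS e S
      rw [hc]
      exact Submodule.smul_mem _ _ (masa_part_mem e S n hn)
    · exact (Submodule.isClosed_topologicalClosure _).preimage a.continuous
  exact h1 hv

theorem masa_part_comm (U : Submodule ℂ H) [CompleteSpace U] (a : H →L[ℂ] H)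
    (h1 : ∀ v ∈ U, a v ∈ U) (h2 : ∀ v ∈ U, (star a) v ∈ U) :
    a * U.starProjection = U.starProjection * a := by
  ext x
  show a (U.starProjection x) = U.starProjection (a x)
  symm
  apply Submodule.eq_starProjection_of_mem_of_inner_eq_zero
  · exact h1 _ (Submodule.starProjection_apply_mem _ x)
  · intro w hw
    rw [← map_sub]
    have h3 : ⟪a (x - U.starProjection x), w⟫_ℂ = ⟪x - U.starProjection x, (star a) w⟫_ℂ := by
      rw [ContinuousLinearMap.star_eq_adjoint, ContinuousLinearMap.adjoint_inner_right]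
    rw [h3]
    exact Submodule.starProjection_inner_eq_zero _ _ (h2 w hw)

theorem masa_part_exists [TopologicalSpace.SeparableSpace H] (V : Set H) :
    ∃ e : ℕ → H, OrthZ e ∧ (∀ n, e n ∈ V ∨ e n = 0) ∧
      ∀ w ∈ V, ‖w‖ = 1 → ¬ ∀ n, ⟪e n, w⟫_ℂ = 0 := by
  classical
  obtain ⟨E, hE⟩ := zorn_subset {b : Set H | b ⊆ V ∧ Orthonormal ℂ (Subtype.val : b → H)} (by
    intro c hc hchain
    refine ⟨⋃₀ c, ⟨Set.sUnion_subset fun s hs => (hc hs).1, ?_⟩, fun s hs => Set.subset_sUnion_of_mem hs⟩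
    exact orthonormal_sUnion_of_directed hchain.directedOn (fun s hs => (hc hs).2))
  obtain ⟨hEV, hEo⟩ := hE.prop
  have hite := orthonormal_subtype_iff_ite.1 hEo
  have hcount : E.Countable := by
    refine Set.PairwiseDisjoint.countable_of_isOpen (s := fun x : H => Metric.ball x (1 / 2)) ?_
      (fun x _ => Metric.isOpen_ball) (fun x _ => Metric.nonempty_ball.2 (by norm_num))
    intro x hx y hy hxy
    apply Metric.ball_disjoint_ball
    have h1 : ⟪x, y⟫_ℂ = 0 := by rw [hite x hx y hy, if_neg hxy]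
    have h2 : ‖x - y‖ ^ 2 = ‖x‖ ^ 2 + ‖y‖ ^ 2 := by
      have := @norm_sub_sq ℂ _ _ _ _ x y
      rw [h1] at this
      simpa using this
    have hx1 : ‖x‖ = 1 := hEo.1 ⟨x, hx⟩
    have hy1 : ‖y‖ = 1 := hEo.1 ⟨y, hy⟩
    rw [hx1, hy1] at h2
    rw [dist_eq_norm]
    have h3 := norm_nonneg (x - y)
    nlinarith
  haveI : Encodable E := hcount.toEncodable
  let e : ℕ → H := fun n => (Encodable.decode₂ E n).elim 0 Subtype.val
  have he1 : ∀ n, (∃ x : E, Encodable.encode x = n ∧ e n = x) ∨ e n = 0 := by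
    intro n
    rcases h : Encodable.decode₂ E n with _ | x
    · right
      show (Encodable.decode₂ E n).elim 0 Subtype.val = 0
      rw [h]
      rfl
    · left
      refine ⟨x, Encodable.decode₂_eq_some.1 h, ?_⟩
      show (Encodable.decode₂ E n).elim 0 Subtype.val = x
      rw [h]
      rfl
  have he2 : ∀ x : E, e (Encodable.encode x) = x := by
    intro x
    show (Encodable.decode₂ E (Encodable.encode x)).elim 0 Subtype.val = x
    rw [Encodable.decode₂_encode]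
    rfl
  refine ⟨e, ⟨fun n => ?_, fun n m hnm => ?_⟩, fun n => ?_, ?_⟩
  · rcases he1 n with ⟨x, -, hx⟩ | h
    · left
      rw [hx]
      exact hEo.1 x
    · exact Or.inr h
  · rcases he1 n with ⟨x, hx1, hx⟩ | h
    · rcases he1 m with ⟨y, hy1, hy⟩ | h'
      · rw [hx, hy, hite x x.2 y y.2, if_neg]
        intro hxy
        apply hnm
        rw [← hx1, ← hy1, Subtype.ext hxy]
      · rw [h', inner_zero_right]
    · rw [h, inner_zero_left]
  · rcases he1 n with ⟨x, -, hx⟩ | h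
    · left
      rw [hx]
      exact hEV x.2
    · exact Or.inr h
  · intro w hwV hw hall
    have hwE : ∀ x ∈ E, ⟪x, w⟫_ℂ = 0 := by
      intro x hx
      have := hall (Encodable.encode (⟨x, hx⟩ : E))
      rwa [he2] at this
    have h1 : w ∈ E := by
      refine hE.le_of_ge (y := insert w E) ⟨Set.insert_subset hwV hEV, ?_⟩ (Set.subset_insert _ _)
        (Set.mem_insert w E)
      rw [orthonormal_subtype_iff_ite]
      have hww : ⟪w, w⟫_ℂ = 1 := by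
        rw [inner_self_eq_norm_sq_to_K, hw]
        simp
      intro x hx y hy
      rcases Set.mem_insert_iff.1 hx with hxw | hxE
      · rcases Set.mem_insert_iff.1 hy with hyw | hyE
        · rw [hxw, hyw, if_pos rfl, hww]
        · have hne : x ≠ y := by
            intro hxy
            rw [← hxw] at hww
            have h3 := hwE y hyE
            rw [← hxw, ← hxy, hww] at h3
            exact one_ne_zero h3
          rw [if_neg hne, ← inner_conj_symm, hxw, hwE y hyE, map_zero]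
      · rcases Set.mem_insert_iff.1 hy with hyw | hyE
        · have hne : x ≠ y := by
            intro hxy
            have h3 := hwE x hxE
            rw [hxy, hyw, hww] at h3
            exact one_ne_zero h3
          rw [if_neg hne, hyw, hwE x hxE]
        · exact hite x hxE y hyE
    have h2 := hwE w h1
    rw [inner_self_eq_zero] at h2
    rw [h2, norm_zero] at hw
    exact zero_ne_one hw

theorem masa_part [TopologicalSpace.SeparableSpace H] (φ : (H →L[ℂ] H) →L[ℂ] ℂ) (hφ : IsState φ)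
    (hS : ∀ e : ℕ → H, OrthZ e → ∃ S : Set ℕ,
      |(φ ((spanS e S).starProjection - (spanS e Sᶜ).starProjection)).re| ≤ 3 / 4)
    (A : StarSubalgebra ℂ (H →L[ℂ] H)) (hA : IsMasa A)
    (hm : ∀ a ∈ A, ∀ b ∈ A, φ (a * b) = φ a * φ b) :
    φ (atomicPart A).starProjection = 0 := by
  obtain ⟨e, he, heV, hmax⟩ := masa_part_exists {v : H | ∀ a ∈ A, ∃ c : ℂ, a v = c • v}
  have hev : ∀ a ∈ A, ∀ n, ∃ c : ℂ, a (e n) = c • e n := by
    intro a ha n
    rcases heV n with h | h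
    · exact h a ha
    · exact ⟨0, by rw [h, map_zero, smul_zero]⟩
  have hcomm : ∀ (S : Set ℕ), ∀ a ∈ A, a * (spanS e S).starProjection = (spanS e S).starProjection * a := by
    intro S a ha
    exact masa_part_comm _ a (masa_part_inv e a (hev a ha) S)
      (masa_part_inv e (star a) (hev (star a) (star_mem ha)) S)
  have hmem : ∀ S : Set ℕ, (spanS e S).starProjection ∈ A := by
    intro S
    exact mem_masa_of_commute A hA _ (isSelfAdjoint_starProjection _) (hcomm S)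
  -- the atomic part
  have hZ : atomicPart A = spanS e Set.univ := by
    apply le_antisymm
    · refine Submodule.topologicalClosure_minimal _ ?_ (Submodule.isClosed_topologicalClosure _)
      rw [Submodule.span_le]
      intro v hv
      by_contra hcon
      set w := v - (spanS e Set.univ).starProjection v with hw
      have hw0 : w ≠ 0 := by
        intro h0
        apply hcon
        rw [sub_eq_zero] at h0
        rw [h0]
        exact Submodule.starProjection_apply_mem _ v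
      have hwn : ‖w‖ ≠ 0 := norm_ne_zero_iff.2 hw0
      refine hmax (((‖w‖⁻¹ : ℝ) : ℂ) • w) ?_ ?_ ?_
      · intro a ha
        obtain ⟨c, hc⟩ := hv a ha
        refine ⟨c, ?_⟩
        have h1 : a ((spanS e Set.univ).starProjection v) = (spanS e Set.univ).starProjection (a v) :=
          congrArg (fun T : H →L[ℂ] H => T v) (hcomm Set.univ a ha)
        rw [map_smul, hw, map_sub, h1, hc, map_smul, ← smul_sub, smul_comm]
      · rw [norm_smul, Complex.norm_real, norm_inv, norm_norm, inv_mul_cancel₀ hwn]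
      · intro n
        rw [inner_smul_right]
        have h1 : ⟪w, e n⟫_ℂ = 0 :=
          Submodule.starProjection_inner_eq_zero _ _ (masa_part_mem e Set.univ n (Set.mem_univ n))
        rw [← inner_conj_symm, h1, map_zero, mul_zero]
    · refine Submodule.topologicalClosure_minimal _ ?_ (Submodule.isClosed_topologicalClosure _)
      rw [Submodule.span_le]
      rintro _ ⟨n, -, rfl⟩
      rcases heV n with h | h
      · exact Submodule.le_topologicalClosure _ (Submodule.subset_span h)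
      · rw [h]
        exact zero_mem _
  obtain ⟨S, hS'⟩ := hS e he
  have hidem : ∀ T : Set ℕ, (spanS e T).starProjection * (spanS e T).starProjection =
      (spanS e T).starProjection := fun T => Submodule.isIdempotentElem_starProjection _
  set x := φ (spanS e S).starProjection with hx
  set y := φ (spanS e Sᶜ).starProjection with hy
  have hxx : x * x = x := by rw [hx, ← hm _ (hmem S) _ (hmem S), hidem]
  have hyy : y * y = y := by rw [hy, ← hm _ (hmem Sᶜ) _ (hmem Sᶜ), hidem]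
  have hxy : x * y = 0 := by rw [hx, hy, ← hm _ (hmem S) _ (hmem Sᶜ), masa_part_mul e he, map_zero]
  have hsum : φ (spanS e Set.univ).starProjection = x + y := by
    rw [← masa_part_add e he S, map_add]
  have hx01 : x = 0 ∨ x = 1 := by
    have : x * (x - 1) = 0 := by rw [mul_sub, hxx, mul_one, sub_self]
    rcases mul_eq_zero.1 this with h | h
    · exact Or.inl h
    · exact Or.inr (sub_eq_zero.1 h)
  have hy01 : y = 0 ∨ y = 1 := by
    have : y * (y - 1) = 0 := by rw [mul_sub, hyy, mul_one, sub_self]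
    rcases mul_eq_zero.1 this with h | h
    · exact Or.inl h
    · exact Or.inr (sub_eq_zero.1 h)
  rw [map_sub, ← hx, ← hy] at hS'
  have hfin : φ (spanS e Set.univ).starProjection = 0 := by
    rw [hsum]
    rcases hx01 with h | h <;> rcases hy01 with h' | h'
    · rw [h, h', add_zero]
    · rw [h, h'] at hS'
      norm_num at hS'
    · rw [h, h'] at hS'
      norm_num at hS'
    · rw [h, h', mul_one] at hxy
      exact absurd hxy one_ne_zero
  have hproj : (atomicPart A).starProjection = (spanS e Set.univ).starProjection := by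
    ext v
    apply Submodule.eq_starProjection_of_mem_of_inner_eq_zero
    · rw [hZ]
      exact Submodule.starProjection_apply_mem _ v
    · intro w hw
      rw [hZ] at hw
      exact Submodule.starProjection_inner_eq_zero _ _ hw
  rw [hproj, hfin]


/-- the index set of the `k`-th block -/
abbrev Lam (q : ℕ → ℕ) (k : ℕ) : Type := (Fin k → Bool) → Fin (q k) × Fin (q k)

/-- arrays of type `RR` form a subspace -/
def RRs {S : Type} [Fintype S] [DecidableEq S] {q : ℕ} (s : S) (g : Fin q → Fin q) :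
    Submodule ℂ (EuclideanSpace ℂ (S → Fin q × Fin q)) where
  carrier := {X | RR s g (fun f => X f)}
  zero_mem' := ⟨fun f _ => by simp, fun f f' _ _ _ => by simp⟩
  add_mem' := by
    intro a b ha hb
    refine ⟨fun f hf => ?_, fun f f' h1 h2 h3 => ?_⟩
    · have h1 := ha.1 f hf
      have h2 := hb.1 f hf
      simp only at h1 h2
      simp only [PiLp.add_apply, h1, h2, add_zero]
    · have e1 := ha.2 f f' h1 h2 h3
      have e2 := hb.2 f f' h1 h2 h3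
      simp only at e1 e2
      simp only [PiLp.add_apply, e1, e2]
  smul_mem' := by
    intro c a ha
    refine ⟨fun f hf => ?_, fun f f' h1 h2 h3 => ?_⟩
    · have h1 := ha.1 f hf
      simp only at h1
      simp only [PiLp.smul_apply, h1, smul_zero]
    · have e1 := ha.2 f f' h1 h2 h3
      simp only at e1
      simp only [PiLp.smul_apply, e1]

/-- the closed subspace attached to a branch `ξ` and a choice `γ` of code words -/
def LL (q : ℕ → ℕ) (β : HilbertBasis (Σ k, Lam q k) ℂ H) (ξ : ℕ → Bool)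
    (γ : ∀ k, Fin (q k) → Fin (q k)) : Submodule ℂ H where
  carrier := {x | ∀ k, RR (fun i : Fin k => ξ i) (γ k) (fun f : Lam q k => ⟪β ⟨k, f⟩, x⟫_ℂ)}
  zero_mem' := by
    intro k
    exact ⟨fun f _ => by simp, fun f f' _ _ _ => by simp⟩
  add_mem' := by
    intro a b ha hb k
    refine ⟨fun f hf => ?_, fun f f' h1 h2 h3 => ?_⟩
    · have h1 := (ha k).1 f hf
      have h2 := (hb k).1 f hf
      simp only at h1 h2
      simp only [inner_add_right, h1, h2, add_zero]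
    · have e1 := (ha k).2 f f' h1 h2 h3
      have e2 := (hb k).2 f f' h1 h2 h3
      simp only at e1 e2
      simp only [inner_add_right, e1, e2]
  smul_mem' := by
    intro c a ha k
    refine ⟨fun f hf => ?_, fun f f' h1 h2 h3 => ?_⟩
    · have h1 := (ha k).1 f hf
      simp only at h1
      simp only [inner_smul_right, h1, mul_zero]
    · have e1 := (ha k).2 f f' h1 h2 h3
      simp only at e1
      simp only [inner_smul_right, e1]

theorem mem_LL {q : ℕ → ℕ} {β : HilbertBasis (Σ k, Lam q k) ℂ H} {ξ : ℕ → Bool}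
    {γ : ∀ k, Fin (q k) → Fin (q k)} {x : H} :
    x ∈ LL q β ξ γ ↔
      ∀ k, RR (fun i : Fin k => ξ i) (γ k) (fun f : Lam q k => ⟪β ⟨k, f⟩, x⟫_ℂ) := Iff.rfl

theorem isClosed_LL (q : ℕ → ℕ) (β : HilbertBasis (Σ k, Lam q k) ℂ H) (ξ : ℕ → Bool)
    (γ : ∀ k, Fin (q k) → Fin (q k)) : IsClosed (LL q β ξ γ : Set H) := by
  have : (LL q β ξ γ : Set H) = ⋂ k, ({x | ∀ f : Lam q k, (f (fun i : Fin k => ξ i)).2 ≠
      γ k (f (fun i : Fin k => ξ i)).1 → ⟪β ⟨k, f⟩, x⟫_ℂ = 0} ∩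
      {x | ∀ f f' : Lam q k, (∀ t, t ≠ (fun i : Fin k => ξ i) → f t = f' t) →
        (f (fun i : Fin k => ξ i)).2 = γ k (f (fun i : Fin k => ξ i)).1 →
        (f' (fun i : Fin k => ξ i)).2 = γ k (f' (fun i : Fin k => ξ i)).1 →
        ⟪β ⟨k, f⟩, x⟫_ℂ = ⟪β ⟨k, f'⟩, x⟫_ℂ}) := by
    ext x
    simp only [SetLike.mem_coe, mem_LL, RR, Set.mem_iInter, Set.mem_inter_iff, Set.mem_setOf_eq]
  rw [this]
  refine isClosed_iInter fun k => IsClosed.inter ?_ ?_
  · simp only [Set.setOf_forall]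
    refine isClosed_iInter fun f => isClosed_iInter fun _ => ?_
    exact isClosed_eq (by fun_prop) (by fun_prop)
  · simp only [Set.setOf_forall]
    refine isClosed_iInter fun f => isClosed_iInter fun f' => isClosed_iInter fun _ =>
      isClosed_iInter fun _ => isClosed_iInter fun _ => ?_
    exact isClosed_eq (by fun_prop) (by fun_prop)

theorem exists_level {I : Type*} (F : Finset I) (ξ : I → ℕ → Bool) (hξ : Function.Injective ξ) :
    ∃ k : ℕ, ∀ i ∈ F, ∀ j ∈ F,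
      (fun t : Fin k => ξ i t) = (fun t : Fin k => ξ j t) → i = j := by
  classical
  have h : ∀ p : I × I, ∃ n : ℕ, p.1 ≠ p.2 → ξ p.1 n ≠ ξ p.2 n := by
    intro p
    by_cases hp : p.1 = p.2
    · exact ⟨0, fun h => absurd hp h⟩
    · obtain ⟨n, hn⟩ := Function.ne_iff.mp (fun h => hp (hξ h))
      exact ⟨n, fun _ => hn⟩
  choose n hn using h
  refine ⟨(F ×ˢ F).sup n + 1, fun i hi j hj hij => ?_⟩
  by_contra hne
  have hle : n (i, j) ≤ (F ×ˢ F).sup n :=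
    Finset.le_sup (f := n) (Finset.mk_mem_product hi hj)
  have := congrFun hij ⟨n (i, j), by omega⟩
  exact hn (i, j) hne this

theorem exists_common (q : ℕ → ℕ) (hq : ∀ k, 0 < q k) (β : HilbertBasis (Σ k, Lam q k) ℂ H)
    {I : Type*} (F : Finset I) (ξ : I → ℕ → Bool) (hξ : Function.Injective ξ)
    (γ : I → ∀ k, Fin (q k) → Fin (q k)) :
    ∃ x : H, ‖x‖ = 1 ∧ ∀ i ∈ F, x ∈ LL q β (ξ i) (γ i) := by
  classical
  obtain ⟨k, hk⟩ := exists_level F ξ hξ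
  let Γ : (Fin k → Bool) → (Fin (q k) → Fin (q k)) := fun s =>
    if h : ∃ i ∈ F, (fun t : Fin k => ξ i t) = s then γ h.choose k else id
  have hΓ : ∀ i ∈ F, Γ (fun t : Fin k => ξ i t) = γ i k := by
    intro i hi
    have h : ∃ j ∈ F, (fun t : Fin k => ξ j t) = (fun t : Fin k => ξ i t) := ⟨i, hi, rfl⟩
    have h2 : h.choose = i := hk _ h.choose_spec.1 _ hi h.choose_spec.2
    simp only [Γ]
    rw [dif_pos h, h2]
  let T : Finset (Lam q k) := Finset.univ.filter (fun f => ∀ s, (f s).2 = Γ s (f s).1)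
  let f0 : Lam q k := fun s => (⟨0, hq k⟩, Γ s ⟨0, hq k⟩)
  have hf0 : f0 ∈ T := by simp [T, f0]
  let x0 : H := ∑ f ∈ T, β ⟨k, f⟩
  have hco : ∀ j : (Σ k, Lam q k), ⟪β j, x0⟫_ℂ = ∑ f ∈ T, if j = ⟨k, f⟩ then 1 else 0 := by
    intro j
    simp only [x0, inner_sum]
    refine Finset.sum_congr rfl fun f _ => ?_
    exact orthonormal_iff_ite.mp β.orthonormal j ⟨k, f⟩
  have hco1 : ∀ f : Lam q k, ⟪β ⟨k, f⟩, x0⟫_ℂ = if f ∈ T then 1 else 0 := by
    intro f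
    rw [hco]
    simp [Sigma.mk.injEq]
  have hco2 : ∀ (k' : ℕ), k' ≠ k → ∀ f : Lam q k', ⟪β ⟨k', f⟩, x0⟫_ℂ = 0 := by
    intro k' hk' f
    rw [hco]
    refine Finset.sum_eq_zero fun f' _ => ?_
    rw [if_neg]
    intro h
    exact hk' (congrArg Sigma.fst h)
  have hx0 : x0 ≠ 0 := by
    intro h
    have := hco1 f0
    rw [h, if_pos hf0, inner_zero_right] at this
    exact zero_ne_one this
  have hmem : ∀ i ∈ F, x0 ∈ LL q β (ξ i) (γ i) := by
    intro i hi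
    rw [mem_LL]
    intro k'
    by_cases hk' : k' = k
    · subst hk'
      refine ⟨fun f hf => ?_, fun f f' h1 h2 h3 => ?_⟩
      · simp only [hco1]
        rw [if_neg]
        intro hT
        simp only [T, Finset.mem_filter, Finset.mem_univ, true_and] at hT
        have := hT (fun t : Fin k' => ξ i t)
        rw [hΓ i hi] at this
        exact hf this
      · simp only [hco1]
        have hiff : f ∈ T ↔ f' ∈ T := by
          simp only [T, Finset.mem_filter, Finset.mem_univ, true_and]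
          constructor
          · intro hT s
            by_cases hs : s = (fun t : Fin k' => ξ i t)
            · rw [hs, hΓ i hi]; exact h3
            · rw [← h1 s hs]; exact hT s
          · intro hT s
            by_cases hs : s = (fun t : Fin k' => ξ i t)
            · rw [hs, hΓ i hi]; exact h2
            · rw [h1 s hs]; exact hT s
        simp only [hiff]
    · exact ⟨fun f _ => hco2 k' hk' f, fun f f' _ _ _ => by
        simp only [hco2 k' hk' f, hco2 k' hk' f']⟩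
  refine ⟨((‖x0‖⁻¹ : ℝ) : ℂ) • x0, ?_, fun i hi => (LL q β (ξ i) (γ i)).smul_mem _ (hmem i hi)⟩
  rw [norm_smul, Complex.norm_real, norm_inv, norm_norm, inv_mul_cancel₀ (norm_ne_zero_iff.mpr hx0)]


/-- Bessel inequality in a block -/
theorem bess_block {Λ : ℕ → Type} [∀ k, Fintype (Λ k)] (β : HilbertBasis (Σ k, Λ k) ℂ H)
    (e : ℕ → H) (he : Bess e) (k : ℕ) (s : Finset ℕ) (Z : EuclideanSpace ℂ (Λ k)) :
    ∑ n ∈ s, ‖⟪arr β k (e n), Z⟫_ℂ‖ ^ 2 ≤ ‖Z‖ ^ 2 := by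
  have h := he s (∑ f, Z f • β ⟨k, f⟩)
  have h1 : ∀ x : H, ⟪x, ∑ f, Z f • β ⟨k, f⟩⟫_ℂ = ⟪arr β k x, Z⟫_ℂ := by
    intro x
    rw [inner_sum, PiLp.inner_apply]
    refine Finset.sum_congr rfl fun f _ => ?_
    simp only [arr, inner_smul_right, RCLike.inner_apply, inner_conj_symm]
  have h2 : ‖∑ f, Z f • β ⟨k, f⟩‖ ^ 2 = ‖Z‖ ^ 2 := by
    have ho : Orthonormal ℂ (fun f : Λ k => β ⟨k, f⟩) :=
      β.orthonormal.comp _ (fun a b hab => by simpa using hab)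
    have h3 := ho.inner_sum Z Z Finset.univ
    rw [EuclideanSpace.norm_sq_eq]
    rw [← inner_self_eq_norm_sq (𝕜 := ℂ), h3, map_sum]
    refine Finset.sum_congr rfl fun f _ => ?_
    rw [Complex.conj_mul']
    norm_cast
  rw [h2] at h
  simpa only [h1] using h

theorem exists_kill (q t : ℕ → ℕ) (hq : ∀ k, 0 < q k) (ht : ∀ k, 0 < t k)
    (G : ∀ k, Finset (Fin (q k) → Fin (q k)))
    (hG1 : ∀ k, ∀ g ∈ G k, ∀ h ∈ G k, g ≠ h →
      2 * t k * (Finset.univ.filter (fun a => g a = h a)).card ≤ q k)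
    (hG2 : ∀ k, 2 * t k ^ 2 * (q k * q k) ^ (2 ^ k) < (G k).card)
    (hp : ∀ k, (64 * 2 ^ (k + 3)) ^ (2 ^ (k + 3)) * (q k * q k) ^ (2 ^ k) * 2 ^ (k + 2) ≤
      t k ^ (2 ^ (k + 3)))
    (hc : ∀ k l, k < l → (q k * q k) ^ (2 ^ k) * 2 ^ (6 * l + 14) ≤ t l)
    (β : HilbertBasis (Σ k, Lam q k) ℂ H) (ξ : ℕ → Bool) (e : ℕ → H) (he : Bess e) :
    ∃ γ : ∀ k, Fin (q k) → Fin (q k), ∃ ε : ℕ → Bool, ∀ z ∈ LL q β ξ γ,
      |∑' n, sg (ε n) * ‖⟪e n, z⟫_ℂ‖ ^ 2| ≤ 1 / 2 * ‖z‖ ^ 2 := by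
  classical
  have hcard : ∀ k, Fintype.card (Lam q k) = (q k * q k) ^ (2 ^ k) := by
    intro k
    simp [Lam, Fintype.card_fun]
  have h : ∀ k, ∃ g ∈ G k, ∀ n, ∀ X : EuclideanSpace ℂ (Lam q k),
      RR (fun i : Fin k => ξ i) g (fun f => X f) →
        ‖⟪X, arr β k (e n)⟫_ℂ‖ ^ 2 ≤ ‖X‖ ^ 2 / t k := by
    intro k
    refine exists_good (fun f : Lam q k => β ⟨k, f⟩) ?_ e he (G k)
      (fun g X => RR (fun i : Fin k => ξ i) g (fun f => X f)) (t k) (ht k) ?_ ?_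
    · exact β.orthonormal.comp _ (fun a b hab => by simpa using hab)
    · intro g hg h hh hgh X Y hX hY
      exact overlap (hq k) (ht k) _ g h (hG1 k g hg h hh hgh) X Y hX hY
    · rw [hcard]
      exact hG2 k
  choose γ hγ1 hγ2 using h
  let R : ∀ k, Submodule ℂ (EuclideanSpace ℂ (Lam q k)) := fun k =>
    RRs (fun i : Fin k => ξ i) (γ k)
  let a : ∀ k, ℕ → EuclideanSpace ℂ (Lam q k) := fun k n =>
    (R k).starProjection (arr β k (e n))
  have haR : ∀ k n, ∀ X ∈ R k, ⟪a k n, X⟫_ℂ = ⟪arr β k (e n), X⟫_ℂ := by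
    intro k n X hX
    have h1 := Submodule.starProjection_inner_eq_zero (K := R k) (arr β k (e n)) X hX
    rw [inner_sub_left, sub_eq_zero] at h1
    exact h1.symm
  have hmem : ∀ k n, a k n ∈ R k := fun k n => Submodule.starProjection_apply_mem _ _
  have ha : ∀ k n, ‖a k n‖ ^ 2 ≤ 1 / t k := by
    intro k n
    have h1 := hγ2 k n (a k n) (hmem k n)
    have h2 : ‖⟪a k n, arr β k (e n)⟫_ℂ‖ = ‖a k n‖ ^ 2 := by
      rw [← inner_conj_symm, ← haR k n _ (hmem k n), inner_self_eq_norm_sq_to_K]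
      simp
    rw [h2] at h1
    by_cases h0 : ‖a k n‖ = 0
    · rw [h0]
      have : (0:ℝ) ≤ 1 / (t k : ℝ) := by positivity
      simpa using this
    · have h3 : 0 < ‖a k n‖ ^ 2 := by positivity
      have h4 : ‖a k n‖ ^ 2 * ‖a k n‖ ^ 2 ≤ ‖a k n‖ ^ 2 * (1 / t k) := by
        calc ‖a k n‖ ^ 2 * ‖a k n‖ ^ 2 = (‖a k n‖ ^ 2) ^ 2 := by ring
          _ ≤ ‖a k n‖ ^ 2 / t k := h1
          _ = ‖a k n‖ ^ 2 * (1 / t k) := by ring
      exact le_of_mul_le_mul_left h4 h3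
  have hB : ∀ k (s : Finset ℕ) z, ∑ n ∈ s, ‖⟪a k n, z⟫_ℂ‖ ^ 2 ≤ ‖z‖ ^ 2 := by
    intro k s z
    have h1 : ∀ n, ⟪a k n, z⟫_ℂ = ⟪arr β k (e n), (R k).starProjection z⟫_ℂ := by
      intro n
      rw [← haR k n _ (Submodule.starProjection_apply_mem _ _)]
      have h2 := Submodule.starProjection_inner_eq_zero (K := R k) z (a k n) (hmem k n)
      rw [inner_sub_left, sub_eq_zero] at h2
      rw [← inner_conj_symm, h2, inner_conj_symm]
    simp only [h1]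
    refine (bess_block β e he k s _).trans ?_
    have h3 : ‖(R k).starProjection z‖ ≤ ‖z‖ := by
      refine ((R k).starProjection.le_opNorm z).trans ?_
      have := Submodule.starProjection_norm_le (R k)
      nlinarith [norm_nonneg z]
    gcongr
  obtain ⟨ε, hε⟩ := limit_signs β R e he a haR (fun N K => by
    refine select t ht (fun k => ?_) (fun k l hkl => ?_) (fun k (n : Fin N) => a k n)
      (fun k n => ha k n) (fun k z => ?_) K
    · rw [hcard]; exact hp k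
    · rw [hcard]; exact hc k l hkl
    · have := hB k (Finset.range N) z
      rwa [Finset.sum_range] at this)
  exact ⟨γ, ε, fun z hz => hε z fun k => hz k⟩

theorem main [TopologicalSpace.SeparableSpace H] (hinf : ¬ FiniteDimensional ℂ H) :
    ∃ φ : (H →L[ℂ] H) →L[ℂ] ℂ, IsPureState φ ∧
      ∀ A : StarSubalgebra ℂ (H →L[ℂ] H), IsMasa A →
        (∀ a ∈ A, ∀ b ∈ A, φ (a * b) = φ a * φ b) → φ (atomicPart A).starProjection = 0 := by
  classical
  obtain ⟨q, t, G, hq, ht, hG1, hG2, hp, hc⟩ := params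
  haveI : Infinite (Σ k, Lam q k) := by
    refine Infinite.of_injective (fun k : ℕ => (⟨k, fun _ => (⟨0, hq k⟩, ⟨0, hq k⟩)⟩ : Σ k, Lam q k)) ?_
    intro a b hab
    exact congrArg Sigma.fst hab
  obtain ⟨β⟩ := exists_basis_reindex hinf (Σ k, Lam q k)
  obtain ⟨c, hcinj⟩ := exists_inj β
  let I := {e : ℕ → H // OrthZ e}
  have hkill : ∀ e : I, ∃ γ : ∀ k, Fin (q k) → Fin (q k), ∃ ε : ℕ → Bool,
      ∀ z ∈ LL q β (c e.1) γ, |∑' n, sg (ε n) * ‖⟪e.1 n, z⟫_ℂ‖ ^ 2| ≤ 1 / 2 * ‖z‖ ^ 2 := fun e =>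
    exists_kill q t hq ht G hG1 hG2 hp hc β (c e.1) e.1 (bess_of_orthZ _ e.2)
  choose γ ε hγ using hkill
  haveI hcl : ∀ e : I, CompleteSpace (LL q β (c e.1) (γ e)) := fun e =>
    (isClosed_LL q β (c e.1) (γ e)).completeSpace_coe
  let Q : I → (H →L[ℂ] H) := fun e => (LL q β (c e.1) (γ e)).starProjection
  obtain ⟨φ, hφ, hφQ⟩ := exists_pure Q (fun e => Submodule.starProjection_norm_le _) (by
    intro F
    obtain ⟨x, hx, hxF⟩ := exists_common q hq β F (fun e : I => c e.1)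
      (fun a b hab => Subtype.ext (hcinj hab)) γ
    exact ⟨x, hx, fun i hi => Submodule.starProjection_eq_self_iff.mpr (hxF i hi)⟩)
  refine ⟨φ, hφ, fun A hA hm => masa_part φ hφ.1 ?_ A hA hm⟩
  intro e he
  let e' : I := ⟨e, he⟩
  let S : Set ℕ := {n | ε e' n = true}
  refine ⟨S, ?_⟩
  have hin : ∀ z : H, (⟪z, ((spanS e S).starProjection - (spanS e Sᶜ).starProjection) z⟫_ℂ).re =
      ∑' n, sg (ε e' n) * ‖⟪e n, z⟫_ℂ‖ ^ 2 := by
    intro z
    have h1 := inner_spanS e he S z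
    have h2 := inner_spanS e he Sᶜ z
    have h3 := h1.sub h2
    rw [ContinuousLinearMap.sub_apply, inner_sub_right, Complex.sub_re, ← h3.tsum_eq]
    refine tsum_congr fun n => ?_
    by_cases hn : n ∈ S
    · have h4 : ε e' n = true := hn
      rw [Set.indicator_of_mem hn, Set.indicator_of_notMem (by simpa using hn), h4]
      simp [sg]
    · have h4 : ε e' n = false := by
        have : ¬ ε e' n = true := hn
        simpa using this
      rw [Set.indicator_of_notMem hn, Set.indicator_of_mem (by simpa using hn), h4]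
      simp [sg]
  refine state_bound φ hφ.1 (LL q β (c e'.1) (γ e')) (hφQ e') _ ?_ ?_ ?_
  · exact IsSelfAdjoint.sub (isSelfAdjoint_starProjection _) (isSelfAdjoint_starProjection _)
  · refine (norm_sub_le _ _).trans ?_
    have h5 := Submodule.starProjection_norm_le (spanS e S)
    have h6 := Submodule.starProjection_norm_le (spanS e Sᶜ)
    linarith
  · intro z hz
    rw [hin]
    exact hγ e' z hz

end Pool.Agent.Helper572.PS2
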